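import Mathlib

/-!
Polygons in a set of pairs: given one pair in a set of coordinates with few classes for each of
`m + 2` places, the pairs for some of the places form a closed polygon.
-/

set_option autoImplicit false

namespace Pool.Agent.V11322.ZF

/-- The exponents `e l i` are independent on polygons: if `U` is a nonempty set of places and
`i l ≠ j l` are coordinates for the places `l` in `U` such that every coordinate occurs an even
number of times among them, then the product of the `t l * e l (i l) * e l (j l)` over `U` is not a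
square, for all numbers `1 ≤ t l ≤ B`. -/
def Cyc {n L : ℕ} (B : ℕ) (e : Fin L → Fin n → ℕ) : Prop :=
  ∀ U : Finset (Fin L), U.Nonempty → ∀ (i j : Fin L → Fin n) (t : Fin L → ℕ),
    (∀ l ∈ U, i l ≠ j l ∧ 0 < t l ∧ t l ≤ B) →
    (∀ v, Even ((U.filter fun l => i l = v).card + (U.filter fun l => j l = v).card)) →
    ¬ IsSquare (∏ l ∈ U, t l * (e l (i l) * e l (j l)))

theorem isSquare_of_mul_sq' {m x : ℕ} (hm : 0 < m) (h : IsSquare (m ^ 2 * x)) : IsSquare x := by
  obtain ⟨a, ha⟩ := h
  have h4 : m ∣ a := by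
    rw [← Nat.pow_dvd_pow_iff (two_ne_zero)]
    exact ⟨x, by rw [ha]; ring⟩
  obtain ⟨c, hc⟩ := h4
  refine ⟨c, ?_⟩
  rw [hc] at ha
  have : m ^ 2 * x = m ^ 2 * (c * c) := by rw [ha]; ring
  exact Nat.eq_of_mul_eq_mul_left (pow_pos hm 2) this

/-- The product over a polygon of numbers which are, up to squares, `q (i l) * q (j l)`. -/
theorem sq_of_cycle {n L : ℕ} (q : Fin n → ℕ) (hq : ∀ i, 0 < q i) (i j : Fin L → Fin n)
    (a : Fin L → ℕ) (U : Finset (Fin L)) (h : ∀ l ∈ U, IsSquare (q (i l) * q (j l) * a l))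
    (hev : ∀ v, Even ((U.filter fun l => i l = v).card + (U.filter fun l => j l = v).card)) :
    IsSquare (∏ l ∈ U, a l) := by
  classical
  have h1 : ∀ k : Fin L → Fin n, ∏ l ∈ U, q (k l) =
      ∏ v, q v ^ (U.filter fun l => k l = v).card := by
    intro k
    rw [← Finset.prod_fiberwise U k]
    refine Finset.prod_congr rfl fun v _ => ?_
    rw [Finset.prod_congr rfl (g := fun _ => q v), Finset.prod_const]
    intro l hl
    rw [(Finset.mem_filter.1 hl).2]
  let c : Fin n → ℕ := fun v =>
    (U.filter fun l => i l = v).card + (U.filter fun l => j l = v).card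
  have h2 : ∏ l ∈ U, q (i l) * q (j l) = (∏ v, q v ^ (c v / 2)) ^ 2 := by
    rw [Finset.prod_mul_distrib, h1, h1, ← Finset.prod_mul_distrib, ← Finset.prod_pow]
    refine Finset.prod_congr rfl fun v _ => ?_
    rw [← pow_add, ← pow_mul]
    congr 1
    have := hev v
    obtain ⟨d, hd⟩ := this
    change _ = c v / 2 * 2
    change c v = d + d at hd
    change c v = c v / 2 * 2
    omega
  have h3 : IsSquare (∏ l ∈ U, q (i l) * q (j l) * a l) :=
    Finset.prod_induction _ IsSquare (fun _ _ ha hb => ha.mul hb) IsSquare.one h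
  rw [Finset.prod_mul_distrib, h2] at h3
  exact isSquare_of_mul_sq' (Finset.prod_pos fun v _ => pow_pos (hq v) _) h3

/-- Vectors over the field with two elements: a dependent family of edges is a polygon. -/
theorem even_of_dep {n L : ℕ} (i j : Fin L → Fin n) (g : Fin L → ZMod 2)
    (hg : ∑ l, g l • (Pi.single (i l) 1 + Pi.single (j l) 1 : Fin n → ZMod 2) = 0) (v : Fin n) :
    Even (((Finset.univ.filter fun l => g l ≠ 0).filter fun l => i l = v).card +
      ((Finset.univ.filter fun l => g l ≠ 0).filter fun l => j l = v).card) := by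
  classical
  have h1 := congrFun hg v
  rw [Finset.sum_apply] at h1
  have h2 : ∀ l, (g l • (Pi.single (i l) 1 + Pi.single (j l) 1 : Fin n → ZMod 2)) v =
      if g l ≠ 0 then ((if i l = v then 1 else 0) + if j l = v then 1 else 0) else 0 := by
    intro l
    rw [Pi.smul_apply, Pi.add_apply, smul_eq_mul]
    have h3 : ∀ k : Fin n, (Pi.single k 1 : Fin n → ZMod 2) v = if k = v then 1 else 0 := by
      intro k
      rw [Pi.single_apply]
      by_cases h : v = k
      · rw [if_pos h, if_pos h.symm]
      · rw [if_neg h, if_neg (Ne.symm h)]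
    rw [h3, h3]
    by_cases h4 : g l = 0
    · rw [h4, zero_mul, if_neg (not_not.2 rfl)]
    · have h5 : g l = 1 := by
        have : ∀ z : ZMod 2, z ≠ 0 → z = 1 := by decide
        exact this _ h4
      rw [if_pos h4, h5, one_mul]
  rw [Finset.sum_congr rfl fun l _ => h2 l, ← Finset.sum_filter, Finset.sum_add_distrib,
    Finset.sum_boole, Finset.sum_boole, ← Nat.cast_add, Pi.zero_apply] at h1
  exact (ZMod.natCast_eq_zero_iff_even).1 h1

/-- The pairs in the same class for `m + 2` places contain a polygon. -/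
theorem exists_cycle {n r m : ℕ} (cls : Fin n → Option (Fin r)) (S : Finset (Fin n))
    (hS : ∀ s ∈ S, cls s ≠ none) (hinj : ∀ s ∈ S, ∀ s' ∈ S, cls s = cls s' → s = s')
    (hcon : r + m < S.card + n) (U : Fin (m + 2) → Finset (Fin n))
    (hU : ∀ l, n ≤ (U l).card + m)
    (hUc : ∀ l, ∀ i ∈ U l, cls i ≠ none ∧ ∀ s ∈ S, cls s ≠ cls i) :
    ∃ (i j : Fin (m + 2) → Fin n) (T : Finset (Fin (m + 2))), T.Nonempty ∧
      (∀ l, i l ∈ U l ∧ j l ∈ U l ∧ i l ≠ j l ∧ cls (i l) = cls (j l)) ∧
      ∀ v, Even ((T.filter fun l => i l = v).card + (T.filter fun l => j l = v).card) := by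
  classical
  -- representatives of the classes
  let F : (k : Option (Fin r)) → (∃ j, cls j = k) → Fin n := fun k hk =>
    if h : ∃ s, s ∈ S ∧ cls s = k then h.choose else hk.choose
  let P : Fin n → Fin n := fun i => F (cls i) ⟨i, rfl⟩
  have hF : ∀ (k k' : Option (Fin r)) (h : ∃ j, cls j = k) (h' : ∃ j, cls j = k'), k = k' →
      F k h = F k' h' := by
    rintro k k' h h' rfl
    rfl
  have hP : ∀ i j, cls i = cls j → P i = P j := fun i j h => hF _ _ _ _ h
  have hPc : ∀ i, cls (P i) = cls i := by
    intro i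
    change cls (F (cls i) ⟨i, rfl⟩) = cls i
    simp only [F]
    split_ifs with h
    · exact h.choose_spec.2
    · exact (⟨i, rfl⟩ : ∃ j, cls j = cls i).choose_spec
  have hPS : ∀ s ∈ S, P s = s := by
    intro s hs
    change F (cls s) ⟨s, rfl⟩ = s
    simp only [F]
    have h : ∃ s', s' ∈ S ∧ cls s' = cls s := ⟨s, hs, rfl⟩
    rw [dif_pos h]
    exact hinj _ h.choose_spec.1 s hs h.choose_spec.2
  have hPP : ∀ i, P (P i) = P i := fun i => hP _ _ (hPc i)
  -- the coordinates which are not representatives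
  let D₀ : Finset (Fin n) := Finset.univ.filter fun i => cls i = none ∨ P i ≠ i
  have hD₀S : Disjoint D₀ S := by
    rw [Finset.disjoint_left]
    intro i hi hiS
    rcases (Finset.mem_filter.1 hi).2 with h | h
    · exact hS i hiS h
    · exact h (hPS i hiS)
  have hSm : S.card ≤ m := by
    have h1 : Disjoint (U 0) S := by
      rw [Finset.disjoint_left]
      intro i hi hiS
      exact (hUc 0 i hi).2 i hiS rfl
    have h2 := Finset.card_le_univ (U 0 ∪ S)
    rw [Finset.card_union_of_disjoint h1, Fintype.card_fin] at h2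
    have h3 := hU 0
    omega
  have hrep : D₀ᶜ.card ≤ r := by
    have h1 : (D₀ᶜ.image cls).card = D₀ᶜ.card := by
      refine Finset.card_image_of_injOn ?_
      intro i hi j hj hij
      have hi' : P i = i := by
        by_contra h
        exact (Finset.mem_compl.1 (Finset.mem_coe.1 hi))
          (Finset.mem_filter.2 ⟨Finset.mem_univ _, Or.inr h⟩)
      have hj' : P j = j := by
        by_contra h
        exact (Finset.mem_compl.1 (Finset.mem_coe.1 hj))
          (Finset.mem_filter.2 ⟨Finset.mem_univ _, Or.inr h⟩)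
      rw [← hi', ← hj']
      exact hP i j hij
    have h2 : D₀ᶜ.image cls ⊆ (Finset.univ : Finset (Fin r)).image some := by
      intro k hk
      obtain ⟨i, hi, rfl⟩ := Finset.mem_image.1 hk
      cases hc : cls i with
      | none =>
        exact ((Finset.mem_compl.1 hi)
          (Finset.mem_filter.2 ⟨Finset.mem_univ _, Or.inl hc⟩)).elim
      | some k => exact Finset.mem_image_of_mem _ (Finset.mem_univ k)
    calc D₀ᶜ.card = (D₀ᶜ.image cls).card := h1.symm
      _ ≤ _ := Finset.card_le_card h2
      _ ≤ (Finset.univ : Finset (Fin r)).card := Finset.card_image_le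
      _ = r := by rw [Finset.card_univ, Fintype.card_fin]
  have hD₀c : m + 1 - S.card ≤ D₀.card := by
    have h1 := Finset.card_compl_add_card D₀
    rw [Fintype.card_fin] at h1
    omega
  obtain ⟨D, hDD, hDc⟩ := Finset.exists_subset_card_eq hD₀c
  have hDS : Disjoint D S := Finset.disjoint_of_subset_left hDD hD₀S
  have hPD : ∀ i, cls i ≠ none → P i ∉ D := by
    intro i hi h
    rcases (Finset.mem_filter.1 (hDD h)).2 with h1 | h1
    · rw [hPc] at h1
      exact hi h1
    · exact h1 (hPP i)
  let φ : Fin n → Fin n := fun i => if i ∈ D then P i else i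
  have hφc : ∀ i, cls (φ i) = cls i := by
    intro i
    simp only [φ]
    split_ifs
    · exact hPc i
    · rfl
  have hone : ∀ l, ∃ i j, i ∈ U l ∧ j ∈ U l ∧ i ≠ j ∧ φ i = φ j := by
    intro l
    have hT : (D ∪ S)ᶜ.card < (U l).card := by
      have h1 := Finset.card_compl_add_card (D ∪ S)
      rw [Finset.card_union_of_disjoint hDS, Fintype.card_fin, hDc] at h1
      have h2 := hU l
      omega
    obtain ⟨i, hi, j, hj, hij, h⟩ := Finset.exists_ne_map_eq_of_card_lt_of_maps_to hT (f := φ) (by
      intro i hi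
      have hi' := Finset.mem_coe.1 hi
      rw [Finset.mem_coe, Finset.mem_compl, Finset.mem_union, not_or]
      refine ⟨?_, ?_⟩
      · simp only [φ]
        split_ifs with h
        · exact hPD i (hUc l i hi').1
        · exact h
      · intro h
        exact (hUc l i hi').2 _ h (hφc i))
    exact ⟨i, j, hi, hj, hij, h⟩
  choose i j hi hj hij hφ using hone
  -- linear algebra over the field with two elements
  let W : Submodule (ZMod 2) (Fin n → ZMod 2) := Submodule.span (ZMod 2)
    (Set.range fun d : D => (Pi.single (d : Fin n) 1 + Pi.single (P d) 1 : Fin n → ZMod 2))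
  have h2 : ∀ w : Fin n → ZMod 2, w + w = 0 := by
    intro w
    funext v
    rw [Pi.add_apply, Pi.zero_apply]
    have : ∀ z : ZMod 2, z + z = 0 := by decide
    exact this _
  have hWφ : ∀ k, (Pi.single k 1 + Pi.single (φ k) 1 : Fin n → ZMod 2) ∈ W := by
    intro k
    simp only [φ]
    split_ifs with h
    · exact Submodule.subset_span ⟨⟨k, h⟩, rfl⟩
    · rw [h2]
      exact W.zero_mem
  have hxW : ∀ l, (Pi.single (i l) 1 + Pi.single (j l) 1 : Fin n → ZMod 2) ∈ W := by
    intro l
    have h3 : (Pi.single (i l) 1 + Pi.single (j l) 1 : Fin n → ZMod 2) =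
        (Pi.single (i l) 1 + Pi.single (φ (i l)) 1) +
          (Pi.single (j l) 1 + Pi.single (φ (j l)) 1) := by
      rw [hφ l]
      have h4 := h2 (Pi.single (φ (j l)) 1)
      calc (Pi.single (i l) 1 + Pi.single (j l) 1 : Fin n → ZMod 2) =
          Pi.single (i l) 1 + Pi.single (j l) 1 + 0 := (add_zero _).symm
        _ = Pi.single (i l) 1 + Pi.single (j l) 1 +
            (Pi.single (φ (j l)) 1 + Pi.single (φ (j l)) 1) := by rw [h4]
        _ = _ := by abel
    rw [h3]
    exact W.add_mem (hWφ _) (hWφ _)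
  have hfr : Module.finrank (ZMod 2) W ≤ m + 1 := by
    have h3 : Module.finrank (ZMod 2) W ≤ Fintype.card D := finrank_range_le_card _
    rw [Fintype.card_coe, hDc] at h3
    omega
  have hdep : ¬ LinearIndependent (ZMod 2)
      (fun l => (Pi.single (i l) 1 + Pi.single (j l) 1 : Fin n → ZMod 2)) := by
    intro hli
    have h3 : LinearIndependent (ZMod 2) (fun l => (⟨_, hxW l⟩ : W)) :=
      LinearIndependent.of_comp W.subtype hli
    have h4 := h3.fintype_card_le_finrank
    rw [Fintype.card_fin] at h4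
    omega
  rw [Fintype.not_linearIndependent_iff] at hdep
  obtain ⟨g, hg, l₀, hl₀⟩ := hdep
  refine ⟨i, j, Finset.univ.filter fun l => g l ≠ 0, ⟨l₀, Finset.mem_filter.2
    ⟨Finset.mem_univ _, hl₀⟩⟩, fun l => ⟨hi l, hj l, hij l, ?_⟩, even_of_dep i j g hg⟩
  rw [← hφc (i l), hφ l, hφc (j l)]

/-- Different prime numbers larger than `B` are independent on polygons. -/
theorem cyc_of_primes {n L B : ℕ} (e : Fin L → Fin n → ℕ) (hp : ∀ l i, (e l i).Prime ∧ B < e l i)
    (hinj : ∀ l i l' i', e l i = e l' i' → l = l' ∧ i = i') : Cyc B e := by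
  classical
  intro U hU i j t ht _ hsq
  obtain ⟨l₀, hl₀⟩ := hU
  obtain ⟨hij, ht0, htB⟩ := ht l₀ hl₀
  set p := e l₀ (i l₀) with hpd
  obtain ⟨hpp, hpB⟩ := hp l₀ (i l₀)
  have hne : ∏ l ∈ U, t l * (e l (i l) * e l (j l)) ≠ 0 := by
    refine Finset.prod_ne_zero_iff.2 fun l hl => ?_
    exact mul_ne_zero (ht l hl).2.1.ne' (mul_ne_zero (hp l _).1.ne_zero (hp l _).1.ne_zero)
  have hterm : ∀ l ∈ U, (t l * (e l (i l) * e l (j l))).factorization p =
      if l = l₀ then 1 else 0 := by
    intro l hl
    obtain ⟨hij', ht0', htB'⟩ := ht l hl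
    have h1 : (t l).factorization p = 0 :=
      Nat.factorization_eq_zero_of_lt (lt_of_le_of_lt htB' hpB)
    rw [Nat.factorization_mul ht0'.ne' (mul_ne_zero (hp l _).1.ne_zero (hp l _).1.ne_zero),
      Nat.factorization_mul (hp l _).1.ne_zero (hp l _).1.ne_zero, Finsupp.add_apply,
      Finsupp.add_apply, h1, (hp l (i l)).1.factorization, (hp l (j l)).1.factorization,
      Finsupp.single_apply, Finsupp.single_apply, zero_add]
    by_cases hll : l = l₀
    · subst hll
      have h5 : ¬ e l (j l) = p := fun h => hij (hinj _ _ _ _ h).2.symm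
      rw [if_neg h5, if_pos hpd.symm, if_pos rfl]
      rfl
    · have h5 : ¬ e l (j l) = p := fun h => hll (hinj _ _ _ _ h).1
      have h6 : ¬ e l (i l) = p := fun h => hll (hinj _ _ _ _ h).1
      rw [if_neg hll, if_neg h5, if_neg h6]
      rfl
  have hfac : (∏ l ∈ U, t l * (e l (i l) * e l (j l))).factorization p = 1 := by
    rw [Nat.factorization_prod (fun l hl => Finset.prod_ne_zero_iff.1 hne l hl)]
    simp only [Finsupp.coe_finsetSum, Finset.sum_apply]
    rw [Finset.sum_congr rfl hterm, Finset.sum_ite_eq' U l₀, if_pos hl₀]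
  obtain ⟨s, hs⟩ := hsq
  have hs0 : s ≠ 0 := by
    rintro rfl
    exact hne (by rw [hs])
  rw [hs, Nat.factorization_mul hs0 hs0, Finsupp.add_apply] at hfac
  omega

end Pool.Agent.V11322.ZF
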