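import Pool.Agent.TH526.ZL.D
import Pool.Agent.V11322.ZF.Cyc

/-!
A local criterion with `m + 2` places for the absence of atypical intersections in products of
modular curves (adapted from `TH526.ZL.D` and `TH526.ZL.K`).
-/

open Function UpperHalfPlane H294ZP MvPolynomial Pool.Agent.W466.ZC Pool.Agent.TH526.ZL

namespace Pool.Agent.V11322.ZF

/-- The combinatorial core, with `m + 2` places. -/
theorem coreF {Λ : Type} [CommRing Λ] [IsDomain Λ] [Algebra Λ ℂ] {n m T : ℕ}
    (R : Fin n → Polynomial (Polynomial Λ)) (hR : ∀ i, (R i).Monic)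
    (hT : ∀ i u w, ((R i).coeff u).coeff w ≠ 0 → u ≤ T ∧ w ≤ T)
    (e : Fin (m + 2) → Fin n → ℕ) (he : ∀ l i, 0 < e l i) (hcyc : Cyc (T ^ 4) e)
    {r : ℕ} (cls : Fin n → Option (Fin r)) (q : Fin n → ℕ) (x s : Fin n → ℂ)
    (hq : ∀ i, 0 < q i)
    (hconst : ∀ i, cls i = none → IsAlgebraic Λ (x i))
    (hrel : ∀ i j l, cls i = some l → cls j = some l →
        IsIntegral (Algebra.adjoin ℤ {x i}) (x j) ∧
        Polynomial.eval₂ (Polynomial.aeval (x i) : Polynomial ℂ →ₐ[ℂ] ℂ).toRingHom (x j)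
          (W282.ZP.Psi (q i * q j)) = 0)
    (hRs : ∀ i, Polynomial.eval₂ (Polynomial.aeval (x i) : Polynomial Λ →ₐ[Λ] ℂ).toRingHom (s i)
      (R i) = 0)
    (S : Finset (Fin n)) (hS : AlgebraicIndependent Λ (fun i : S => x i))
    (V : Fin (m + 2) → ValuationSubring ℂ) (g : ∀ l, (V l).ValueGroup)
    (hg : ∀ l, g l < 1)
    (hVc : ∀ l i, cls i = none → (V l).valuation (x i) ≤ 1)
    (hVR : ∀ l i u w, ((R i).coeff u).coeff w ≠ 0 →
      (V l).valuation (algebraMap Λ ℂ (((R i).coeff u).coeff w)) = 1)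
    (hVx : ∀ l (i : S), x i ∈ V l)
    (hgood : ∀ l, ∃ E : Finset (Fin n), E.card ≤ m ∧ ∀ i, i ∉ E →
      (V l).valuation (s i) * g l ^ e l i = 1) :
    S.card + n ≤ r + m := by
  classical
  have hV1 : ∀ l i j k, cls i = some k → cls j = some k → (V l).valuation (x i) ≤ 1 →
      (V l).valuation (x j) ≤ 1 := by
    intro l i j k hi hj h1
    exact ((W282.ZP.Psi_spec (Nat.mul_pos (hq i) (hq j))).2.2 ℂ (V l) (x i) (x j) (hrel i j k hi hj).2).1 h1
  have hSsome : ∀ t : S, ∃ k, cls t = some k := by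
    intro t
    cases hc : cls t with
    | none => exact ((hS.transcendental t) (hconst t hc)).elim
    | some k => exact ⟨k, rfl⟩
  choose cl hcl using hSsome
  have hclinj : Function.Injective cl := by
    intro t t' htt
    by_contra hne
    exact not_algInd' hS hne (hrel t t' (cl t) (hcl t) (by rw [htt]; exact hcl t')).1
  by_contra hcon
  push Not at hcon
  choose E hE hEg using hgood
  have hone_lt : ∀ l i, i ∉ E l → 1 < (V l).valuation (s i) := by
    intro l i hi
    by_contra hle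
    push Not at hle
    have h1 : (V l).valuation (s i) * g l ^ e l i < 1 :=
      (mul_le_of_le_one_left' hle).trans_lt (pow_lt_one₀ zero_le (hg l) (he l i).ne')
    rw [hEg l i hi] at h1
    exact lt_irrefl _ h1
  have htie := fun l i (hi : i ∉ E l) => tie (V l) (R i) (hR i) (hVR l i) (hT i) (hRs i)
    (hone_lt l i hi)
  have hgt : ∀ l i, i ∉ E l → 1 < (V l).valuation (x i) := fun l i hi => (htie l i hi).1
  obtain ⟨i, j, U, hU, hij, hev⟩ := exists_cycle (m := m) cls S
    (fun t ht h => by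
      have hk := hcl ⟨t, ht⟩
      simp only at hk
      rw [hk] at h
      cases h)
    (fun t ht t' ht' h => by
      have h1 : cl ⟨t, ht⟩ = cl ⟨t', ht'⟩ := by
        have h2 := hcl ⟨t, ht⟩
        have h3 := hcl ⟨t', ht'⟩
        simp only at h2 h3
        rw [h, h3] at h2
        exact (Option.some.inj h2).symm
      exact congrArg Subtype.val (hclinj h1))
    (by omega) (fun l => (E l)ᶜ)
    (fun l => by
      have h1 := Finset.card_compl_add_card (E l)
      rw [Fintype.card_fin] at h1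
      have h2 := hE l
      omega)
    (fun l i hi => by
      have h1 := hgt l i (Finset.mem_compl.1 hi)
      refine ⟨?_, ?_⟩
      · intro h
        exact absurd h1 (not_lt.2 (hVc l i h))
      · intro t ht h
        have hk := hcl ⟨t, ht⟩
        have h3 := hV1 l t i (cl ⟨t, ht⟩) hk (by rw [← h]; exact hk)
          ((ValuationSubring.valuation_le_one_iff _ _).2 (hVx l ⟨t, ht⟩))
        exact absurd h1 (not_lt.2 h3))
  have hone : ∀ l, ∃ t : ℕ, 0 < t ∧ t ≤ T ^ 4 ∧
      IsSquare (q (i l) * q (j l) * (t * (e l (i l) * e l (j l)))) := by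
    intro l
    obtain ⟨hi, hj, hne, hcls⟩ := hij l
    have hi' := Finset.mem_compl.1 hi
    have hj' := Finset.mem_compl.1 hj
    obtain ⟨h1, u, w, hu0, huT, hw0, hwT, huw⟩ := htie l (i l) hi'
    obtain ⟨-, u', w', hu0', huT', hw0', hwT', huw'⟩ := htie l (j l) hj'
    have hk : ∃ k, cls (i l) = some k := by
      cases hc : cls (i l) with
      | none => exact absurd h1 (not_lt.2 (hVc l _ hc))
      | some k => exact ⟨k, rfl⟩
    obtain ⟨k, hk⟩ := hk
    refine ⟨u * w * (u' * w'), Nat.mul_pos (Nat.mul_pos hu0 hw0) (Nat.mul_pos hu0' hw0'), ?_, ?_⟩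
    · calc u * w * (u' * w') ≤ T * T * (T * T) := by gcongr
        _ = T ^ 4 := by ring
    · have h2 := sq_tie' (Nat.mul_pos (hq _) (hq _)) (hrel (i l) (j l) k hk (hcls ▸ hk)).2 (V l)
        (hg l) (hEg l _ hi') (hEg l _ hj') h1 huw huw'
      have h3 : q (i l) * q (j l) * (u * w * (u' * w') * (e l (i l) * e l (j l))) =
          q (i l) * q (j l) * (e l (i l) * e l (j l)) * (u * w * (u' * w')) := by ring
      rw [h3]
      exact h2
  choose t ht0 htT htsq using hone
  exact hcyc U hU i j t (fun l _ => ⟨(hij l).2.2.1, ht0 l, htT l⟩) hev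
    (sq_of_cycle q hq i j _ U (fun l _ => htsq l) hev)

/-- The local criterion with `m + 2` places, for points. -/
theorem criterionF {Λ : Type} [CommRing Λ] [IsDomain Λ] [Algebra Λ ℂ] {κ : Type*}
    {N n m : ℕ} (G : κ → MvPolynomial (Fin (N + 1)) Λ)
    (hG : ∀ i, ∃ e, (G i).IsHomogeneous e) (A B : Fin n → MvPolynomial (Fin (N + 1)) Λ)
    (d : Fin n → ℕ) (hA : ∀ i, (A i).IsHomogeneous (d i)) (hB : ∀ i, (B i).IsHomogeneous (d i))
    (R : Fin n → Polynomial (Polynomial Λ)) (hR : ∀ i, (R i).Monic) {T : ℕ}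
    (hT : ∀ i u w, ((R i).coeff u).coeff w ≠ 0 → u ≤ T ∧ w ≤ T)
    (c : Fin n → Λ) (𝔭 : Fin (m + 2) → Ideal Λ) (h𝔭 : ∀ l, (𝔭 l).IsPrime)
    (hpos : ∀ l (F : Type) [Field F] (φ : Λ →+* F), RingHom.ker φ = 𝔭 l → ∀ I : Finset (Fin n),
      I.card = m + 1 → ∀ y : Fin (N + 1) → F, y ≠ 0 → (∀ k, eval₂ φ y (G k) = 0) →
      ∃ i ∈ I, eval₂ φ y (A i) * eval₂ φ y (B i) ≠ 0)
    (hRu : ∀ l i u w, ((R i).coeff u).coeff w ≠ 0 → ((R i).coeff u).coeff w ∉ 𝔭 l)
    (π : Fin (m + 2) → Λ) (hπ : ∀ l, π l ∈ 𝔭 l)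
    (e : Fin (m + 2) → Fin n → ℕ) (he : ∀ l i, 0 < e l i)
    (hc : ∀ l i, ∃ a b : Λ, a ∉ 𝔭 l ∧ b ∉ 𝔭 l ∧ a * c i = b * π l ^ e l i)
    (hcyc : Cyc (T ^ 4) e)
    {r : ℕ} (cls : Fin n → Option (Fin r)) (q : Fin n → ℕ) (x s : Fin n → ℂ)
    (hq : ∀ i, 0 < q i)
    (hconst : ∀ i, cls i = none → IsIntegral Λ (x i))
    (hrel : ∀ i j l, cls i = some l → cls j = some l →
        IsIntegral (Algebra.adjoin ℤ {x i}) (x j) ∧
        Polynomial.eval₂ (Polynomial.aeval (x i) : Polynomial ℂ →ₐ[ℂ] ℂ).toRingHom (x j)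
          (W282.ZP.Psi (q i * q j)) = 0)
    (hRs : ∀ i, Polynomial.eval₂ (Polynomial.aeval (x i) : Polynomial Λ →ₐ[Λ] ℂ).toRingHom (s i)
      (R i) = 0)
    (y : Fin (N + 1) → ℂ) (hy0 : y ≠ 0) (hyG : ∀ i, aeval y (G i) = 0)
    (hxy : ∀ i, algebraMap Λ ℂ (c i) * aeval y (B i) * s i = aeval y (A i))
    (S : Finset (Fin n)) (hS : AlgebraicIndependent Λ (fun i : S => x i)) :
    S.card + n ≤ r + m := by
  classical
  choose V hV1 hV2 hVx using fun l => exists_place (𝔭 l) _ hS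
  have hunit : ∀ l (a : Λ), a ∉ 𝔭 l → (V l).valuation (algebraMap Λ ℂ a) = 1 := by
    intro l a ha
    refine le_antisymm (hV1 l a) ?_
    by_contra h
    push Not at h
    exact ha ((hV2 l a).1 h)
  refine coreF (m := m) R hR hT e he hcyc cls q x s hq (fun i hi => (hconst i hi).isAlgebraic)
    hrel hRs S hS V (fun l => (V l).valuation (algebraMap Λ ℂ (π l)))
    (fun l => (hV2 l (π l)).2 (hπ l))
    (fun l i hi => mem_of_int (V l) (hV1 l) (hconst i hi))
    (fun l i u w h0 => hunit l _ (hRu l i u w h0)) hVx ?_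
  intro l
  obtain ⟨t, ht0, hAB, hI⟩ := good_place G hG A B (hpos l) (V l) (hV1 l) (hV2 l) y hy0 hyG
  refine ⟨Finset.univ.filter fun i =>
      ¬ (V l).valuation (aeval (t • y) (A i) * aeval (t • y) (B i)) = 1, ?_, ?_⟩
  · by_contra h
    push Not at h
    obtain ⟨I, hIE, hIc⟩ := Finset.exists_subset_card_eq (Nat.succ_le_of_lt h)
    obtain ⟨i, hi, h1⟩ := hI I hIc
    exact (Finset.mem_filter.1 (hIE hi)).2 h1
  · intro i hi
    rw [Finset.mem_filter] at hi
    push Not at hi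
    have h1 := hi (Finset.mem_univ i)
    have hA1 := (ValuationSubring.valuation_le_one_iff _ _).2 (hAB i).1
    have hB1 := (ValuationSubring.valuation_le_one_iff _ _).2 (hAB i).2
    rw [map_mul] at h1
    have hA2 : (V l).valuation (aeval (t • y) (A i)) = 1 := by
      refine le_antisymm hA1 ?_
      by_contra h
      push Not at h
      have h2 := (mul_le_of_le_one_right' hB1).trans_lt h
      rw [h1] at h2
      exact lt_irrefl _ h2
    have hB2 : (V l).valuation (aeval (t • y) (B i)) = 1 := by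
      rw [hA2, one_mul] at h1
      exact h1
    have hsm : ∀ (P : MvPolynomial (Fin (N + 1)) Λ) (f : ℕ), P.IsHomogeneous f →
        aeval (t • y) P = t ^ f * aeval y P := by
      intro P f hP
      have h1 := eval_smul (hP.map (algebraMap Λ ℂ)) t y
      rwa [eval_map, eval_map, ← aeval_def, ← aeval_def] at h1
    have h3 : algebraMap Λ ℂ (c i) * aeval (t • y) (B i) * s i = aeval (t • y) (A i) := by
      rw [hsm _ _ (hA i), hsm _ _ (hB i), ← hxy i]
      ring
    have h4 := congrArg (V l).valuation h3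
    rw [map_mul, map_mul, hA2, hB2, mul_one] at h4
    obtain ⟨a, b, ha, hb, hab⟩ := hc l i
    have h5 := congrArg (fun z => (V l).valuation (algebraMap Λ ℂ z)) hab
    simp only [map_mul, map_pow, hunit l a ha, hunit l b hb, one_mul] at h5
    rw [← h5, mul_comm]
    exact h4

end Pool.Agent.V11322.ZF
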