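import Pool.Agent.V11322.ZF.Main
import Pool.Agent.TH526.ZL.K

/-!
Criteria with `m + 2` places for subvarieties of products of modular curves given by equations
(adapted from `TH526.ZL.H` and `TH526.ZL.K`).
-/

open Function UpperHalfPlane H294ZP MvPolynomial Pool.Agent.W466.ZC Pool.Agent.TH526.ZL

namespace Pool.Agent.V11322.ZF

/-- The local criterion for sets given by equations, for points. -/
theorem criterionBoxF {Λ : Type} [CommRing Λ] [IsDomain Λ] [Algebra Λ ℂ] {n m : ℕ}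
    (R : Fin n → Polynomial (Polynomial Λ)) (hR : ∀ i, (R i).Monic) {T : ℕ}
    (hT : ∀ i u w, ((R i).coeff u).coeff w ≠ 0 → u ≤ T ∧ w ≤ T)
    (c : Fin n → Λ) (𝔭 : Fin (m + 2) → Ideal Λ) (h𝔭 : ∀ l, (𝔭 l).IsPrime)
    (G : ∀ J : Finset (Fin n), MvPolynomial J Λ) (d : ∀ J : Finset (Fin n), J → ℕ)
    (hd : ∀ J : Finset (Fin n), J.card = m + 1 → ∀ u ∈ (G J).support, ∀ j, u j ≤ d J j)
    (hcor : ∀ l (J : Finset (Fin n)), J.card = m + 1 → ∀ I : Finset J, (G J).coeff (corner (d J) I) ∉ 𝔭 l)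
    (hRu : ∀ l i u w, ((R i).coeff u).coeff w ≠ 0 → ((R i).coeff u).coeff w ∉ 𝔭 l)
    (π : Fin (m + 2) → Λ) (hπ : ∀ l, π l ∈ 𝔭 l)
    (e : Fin (m + 2) → Fin n → ℕ) (he : ∀ l i, 0 < e l i)
    (hc : ∀ l i, ∃ a b : Λ, a ∉ 𝔭 l ∧ b ∉ 𝔭 l ∧ a * c i = b * π l ^ e l i)
    (hcyc : Cyc (T ^ 4) e)
    {r : ℕ} (cls : Fin n → Option (Fin r)) (q : Fin n → ℕ) (x s : Fin n → ℂ)
    (hq : ∀ i, 0 < q i)
    (hconst : ∀ i, cls i = none → IsIntegral Λ (x i))
    (hrel : ∀ i j l, cls i = some l → cls j = some l →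
        IsIntegral (Algebra.adjoin ℤ {x i}) (x j) ∧
        Polynomial.eval₂ (Polynomial.aeval (x i) : Polynomial ℂ →ₐ[ℂ] ℂ).toRingHom (x j)
          (W282.ZP.Psi (q i * q j)) = 0)
    (hRs : ∀ i, Polynomial.eval₂ (Polynomial.aeval (x i) : Polynomial Λ →ₐ[Λ] ℂ).toRingHom (s i)
      (R i) = 0)
    (hG : ∀ J : Finset (Fin n), J.card = m + 1 → aeval (fun j : J => algebraMap Λ ℂ (c j) * s j) (G J) = 0)
    (S : Finset (Fin n)) (hS : AlgebraicIndependent Λ (fun i : S => x i)) :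
    S.card + n ≤ r + m := by
  classical
  choose V hV1 hV2 hVx using fun l => exists_place (𝔭 l) _ hS
  have hunit : ∀ l (a : Λ), a ∉ 𝔭 l → (V l).valuation (algebraMap Λ ℂ a) = 1 := by
    intro l a ha
    refine le_antisymm (hV1 l a) ?_
    by_contra h
    push Not at h
    exact ha ((hV2 l a).1 h)
  refine coreF (m := m) R hR hT e he hcyc cls q x s hq (fun i hi => (hconst i hi).isAlgebraic)
    hrel hRs S hS V (fun l => (V l).valuation (algebraMap Λ ℂ (π l)))
    (fun l => (hV2 l (π l)).2 (hπ l))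
    (fun l i hi => mem_of_int (V l) (hV1 l) (hconst i hi))
    (fun l i u w h0 => hunit l _ (hRu l i u w h0)) hVx ?_
  intro l
  refine ⟨Finset.univ.filter fun i => ¬ (V l).valuation (algebraMap Λ ℂ (c i) * s i) = 1, ?_, ?_⟩
  · by_contra h
    push Not at h
    obtain ⟨J, hJE, hJc⟩ := Finset.exists_subset_card_eq (Nat.succ_le_of_lt h)
    obtain ⟨j, hj⟩ := corner_unit (V l) (G J) (fun u _ => hV1 l _) (d J) (hd J hJc)
      (fun I => hunit l _ (hcor l J hJc I)) _ (hG J hJc)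
    exact (Finset.mem_filter.1 (hJE j.2)).2 hj
  · intro i hi
    rw [Finset.mem_filter] at hi
    push Not at hi
    have h1 := hi (Finset.mem_univ i)
    rw [map_mul] at h1
    obtain ⟨a, b, ha, hb, hab⟩ := hc l i
    have h5 := congrArg (fun z => (V l).valuation (algebraMap Λ ℂ z)) hab
    simp only [map_mul, map_pow, hunit l a ha, hunit l b hb, one_mul] at h5
    rw [← h5, mul_comm]
    exact h1

/-- Almost all scalings of a set given by equations. -/
theorem boxF (K : Subfield ℂ) {n m : ℕ} (R : Fin n → Polynomial (Polynomial K))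
    (hR : ∀ i, (R i).Monic) {T : ℕ}
    (hT : ∀ i u w, ((R i).coeff u).coeff w ≠ 0 → u ≤ T ∧ w ≤ T)
    (G : ∀ J : Finset (Fin n), MvPolynomial J K) (d : ∀ J : Finset (Fin n), J → ℕ)
    (hd : ∀ J : Finset (Fin n), J.card = m + 1 → ∀ u ∈ (G J).support, ∀ j, u j ≤ d J j)
    (hcor : ∀ J : Finset (Fin n), J.card = m + 1 → ∀ I : Finset J,
      (G J).coeff (corner (d J) I) ≠ 0) (Γ : Finset ℂ) (hΓ : ∀ γ ∈ Γ, γ ∈ K) :
    ∃ D : ℕ, ∀ c : Fin n → ℕ, SpreadF (m + 2) T D c →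
      ∀ (r : ℕ) (cls : Fin n → Option (Fin r)) (q : Fin n → ℕ) (x s : Fin n → ℂ),
      (∀ i, 0 < q i) →
      (∀ i, cls i = none → IsIntegral (Algebra.adjoin ℤ (Γ : Set ℂ)) (x i)) →
      (∀ i j l, cls i = some l → cls j = some l →
        IsIntegral (Algebra.adjoin ℤ {x i}) (x j) ∧
        Polynomial.eval₂ (Polynomial.aeval (x i) : Polynomial ℂ →ₐ[ℂ] ℂ).toRingHom (x j)
          (W282.ZP.Psi (q i * q j)) = 0) →
      (∀ i, Polynomial.eval₂ (Polynomial.aeval (x i) : Polynomial K →ₐ[K] ℂ).toRingHom (s i)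
        (R i) = 0) →
      (∀ J : Finset (Fin n), J.card = m + 1 → aeval (fun j : J => (c j : ℂ) * s j) (G J) = 0) →
      ∀ S : Finset (Fin n), AlgebraicIndependent K (fun i : S => x i) → S.card + n ≤ r + m := by
  classical
  obtain ⟨D, hD⟩ := exists_val_data R G (fun γ : Γ => (⟨γ, hΓ γ γ.2⟩ : K))
  refine ⟨D, fun c hc r cls q x s hq hconst hrel hRs hG S hS => ?_⟩
  obtain ⟨p, hp, he, hcyc⟩ := hc
  choose V hV hVΓ hVR hVG hVx using fun l => hD (p l) (hp l).1 (hp l).2 S _ hS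
  have hL0 : 0 < m + 2 := Nat.succ_pos _
  have hc0 : ∀ i, c i ≠ 0 := by
    intro i h0
    have h1 : 0 < (c i).factorization (p ⟨0, hL0⟩) := he ⟨0, hL0⟩ i
    rw [h0] at h1
    simp at h1
  have hgood : ∀ l i, (V l).valuation ((c i : ℂ) * s i) = 1 →
      (V l).valuation (s i) * (V l).valuation (p l : ℂ) ^ (c i).factorization (p l) = 1 := by
    intro l i h1
    rw [map_mul, v_nat_pow' (V l) (hp l).1 (hV l) (hc0 i)] at h1
    rw [mul_comm]
    exact h1
  refine coreF (m := m) R hR hT (fun l i => (c i).factorization (p l)) he hcyc cls q x s hq ?_ hrel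
    hRs S hS V (fun l => (V l).valuation (p l : ℂ)) hV ?_ hVR hVx ?_
  · intro i hi
    obtain ⟨P, hP, hPe⟩ := hconst i hi
    have hle : ∀ z ∈ Algebra.adjoin ℤ (Γ : Set ℂ), z ∈ K := by
      intro z hz
      have h9 : Algebra.adjoin ℤ (Γ : Set ℂ) ≤ subalgebraOfSubring K.toSubring :=
        Algebra.adjoin_le fun g hg => hΓ g hg
      exact h9 hz
    let φ : Algebra.adjoin ℤ (Γ : Set ℂ) →+* K :=
      (algebraMap (Algebra.adjoin ℤ (Γ : Set ℂ)) ℂ).codRestrict K (fun a => hle a a.2)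
    have h1 : IsIntegral K (x i) := by
      refine ⟨P.map φ, hP.map _, ?_⟩
      rw [Polynomial.eval₂_map]
      exact hPe
    exact h1.isAlgebraic
  · intro l i hi
    refine (ValuationSubring.valuation_le_one_iff _ _).2
      (W466.ZC.mem_of_integral (V l) ?_ (hconst i hi))
    intro w hw
    have hle : Algebra.adjoin ℤ (Γ : Set ℂ) ≤ subalgebraOfSubring (V l).toSubring := by
      refine Algebra.adjoin_le ?_
      intro g hg
      exact (ValuationSubring.valuation_le_one_iff _ _).1 (hVΓ l ⟨g, hg⟩)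
    exact hle hw
  · intro l
    refine ⟨Finset.univ.filter fun i => ¬ (V l).valuation ((c i : ℂ) * s i) = 1, ?_, ?_⟩
    · by_contra h
      push Not at h
      obtain ⟨J, hJE, hJc⟩ := Finset.exists_subset_card_eq (Nat.succ_le_of_lt h)
      obtain ⟨j, hj⟩ := corner_unit (V l) (G J) (fun u hu => (hVG l _ u hu).le) (d J)
        (hd J hJc) (fun I => hVG l _ _ (mem_support_iff.2 (hcor J hJc I))) _ (hG J hJc)
      exact (Finset.mem_filter.1 (hJE j.2)).2 hj
    · intro i hi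
      rw [Finset.mem_filter] at hi
      push Not at hi
      exact hgood l i (hi (Finset.mem_univ i))

end Pool.Agent.V11322.ZF
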