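import Pool.Agent.V11322.ZF.Core
import Pool.Agent.TH526.ZL.J
import Pool.Agent.TH526.ZL.I

/-!
Zilber-Pink for scaled images in products of modular curves: scaling vectors with `m + 2` large
primes (adapted from `TH526.ZL.B` and `TH526.ZL.I`).
-/

open Function UpperHalfPlane H294ZP MvPolynomial Pool.Agent.W466.ZC Pool.Agent.TH526.ZL

namespace Pool.Agent.V11322.ZF

/-- The vector `c` has `L` primes above `D` at which the exponents are positive and independent on
polygons. -/
def SpreadF {n : ℕ} (L T D : ℕ) (c : Fin n → ℕ) : Prop :=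
  ∃ p : Fin L → ℕ, (∀ l, (p l).Prime ∧ D < p l) ∧ (∀ l i, 0 < (c i).factorization (p l)) ∧
    Cyc (T ^ 4) fun l i => (c i).factorization (p l)

theorem mainF {k : Type} [Field k] [Algebra k ℂ] [IsAlgClosed k] [CharZero k] {κ : Type*}
    {N n m : ℕ} (G : κ → MvPolynomial (Fin (N + 1)) k)
    (hG : ∀ i, ∃ e, (G i).IsHomogeneous e) (A B : Fin n → MvPolynomial (Fin (N + 1)) k)
    (d : Fin n → ℕ) (hA : ∀ i, (A i).IsHomogeneous (d i)) (hB : ∀ i, (B i).IsHomogeneous (d i))
    (hdis : ∀ I : Finset (Fin n), I.card = m + 1 → ∀ y : Fin (N + 1) → ℂ,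
      (∀ i, aeval y (G i) = 0) → (∀ i ∈ I, aeval y (A i) * aeval y (B i) = 0) → y = 0)
    (R : Fin n → Polynomial (Polynomial k)) (hR : ∀ i, (R i).Monic) (T : ℕ)
    (hT : ∀ i u w, ((R i).coeff u).coeff w ≠ 0 → u ≤ T ∧ w ≤ T)
    {ι : Type*} [Finite ι] (Γ : ι → k) :
    ∃ D : ℕ, ∀ c : Fin n → ℕ, SpreadF (m + 2) T D c →
      ∀ (r : ℕ) (cls : Fin n → Option (Fin r)) (q : Fin n → ℕ) (x s : Fin n → ℂ),
      (∀ i, 0 < q i) →
      (∀ i, cls i = none → IsIntegral (Algebra.adjoin ℤ (Set.range fun g => algebraMap k ℂ (Γ g)))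
        (x i)) →
      (∀ i j l, cls i = some l → cls j = some l →
        IsIntegral (Algebra.adjoin ℤ {x i}) (x j) ∧
        Polynomial.eval₂ (Polynomial.aeval (x i) : Polynomial ℂ →ₐ[ℂ] ℂ).toRingHom (x j)
          (W282.ZP.Psi (q i * q j)) = 0) →
      (∀ i, Polynomial.eval₂ (Polynomial.aeval (x i) : Polynomial k →ₐ[k] ℂ).toRingHom (s i)
        (R i) = 0) →
      ∀ y : Fin (N + 1) → ℂ, y ≠ 0 → (∀ i, aeval y (G i) = 0) →
      (∀ i, (c i : ℂ) * aeval y (B i) * s i = aeval y (A i)) →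
      ∀ S : Finset (Fin n), AlgebraicIndependent k (fun i : S => x i) →
        S.card + n ≤ r + m := by
  classical
  let C := (i : Fin n) × (expo (R i))
  let γ : C → k := fun q => ((R q.1).coeff q.2.1.1).coeff q.2.1.2
  obtain ⟨D, hD⟩ := good' G hG A B hdis (Sum.elim Γ (Sum.elim γ fun q => (γ q)⁻¹))
  refine ⟨D, fun c hc r cls q x s hq hconst hrel hRs y hy0 hyG hxy S hS => ?_⟩
  obtain ⟨p, hp, he, hcyc⟩ := hc
  choose V hV hVΓ' hVx hVy using fun l => hD (p l) (hp l).1 (hp l).2 S _ hS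
  have hVΓ : ∀ l g, algebraMap k ℂ (Γ g) ∈ V l := fun l g => hVΓ' l (Sum.inl g)
  have hVR : ∀ l i u w, ((R i).coeff u).coeff w ≠ 0 →
      (V l).valuation (algebraMap k ℂ (((R i).coeff u).coeff w)) = 1 := by
    intro l i u w h0
    have h1 := hVΓ' l (Sum.inr (Sum.inl ⟨i, (u, w), mem_expo.2 h0⟩))
    have h2 := hVΓ' l (Sum.inr (Sum.inr ⟨i, (u, w), mem_expo.2 h0⟩))
    simp only [Sum.elim_inr, Sum.elim_inl] at h1 h2
    have h3 : γ ⟨i, (u, w), mem_expo.2 h0⟩ = ((R i).coeff u).coeff w := rfl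
    rw [h3] at h1 h2
    rw [← ValuationSubring.valuation_le_one_iff] at h1 h2
    rw [map_inv₀, map_inv₀] at h2
    have h4 : (V l).valuation (algebraMap k ℂ (((R i).coeff u).coeff w)) ≠ 0 := by
      rw [Ne, map_eq_zero, map_eq_zero]
      exact h0
    refine le_antisymm h1 ?_
    by_contra h5
    push Not at h5
    have h6 := (one_lt_inv₀ (zero_lt_iff.2 h4)).2 h5
    exact absurd h6 (not_lt.2 h2)
  have hV1 : ∀ l, (V l).valuation (p l : ℂ) < 1 := fun l =>
    (ValuationSubring.mem_nonunits_iff _).1 (hV l)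
  have hc0 : ∀ i, c i ≠ 0 := by
    intro i h0
    have h1 : 0 < (c i).factorization (p ⟨0, Nat.succ_pos _⟩) := he ⟨0, Nat.succ_pos _⟩ i
    rw [h0] at h1
    simp at h1
  refine coreF (m := m) R hR hT (fun l i => (c i).factorization (p l)) he hcyc cls q x s hq ?_ hrel
    hRs S hS V (fun l => (V l).valuation (p l : ℂ)) hV1 ?_ hVR hVx ?_
  · intro i hi
    have h1 := hconst i hi
    have h2 : ∀ z ∈ Algebra.adjoin ℤ (Set.range fun g => algebraMap k ℂ (Γ g)),
        z ∈ (algebraMap k ℂ).range := by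
      intro z hz
      have h9 : Algebra.adjoin ℤ (Set.range fun g => algebraMap k ℂ (Γ g)) ≤
          subalgebraOfSubring (algebraMap k ℂ).range := by
        refine Algebra.adjoin_le ?_
        rintro _ ⟨g, rfl⟩
        exact ⟨Γ g, rfl⟩
      exact h9 hz
    obtain ⟨P, hP, hPe⟩ := h1
    let φ : Algebra.adjoin ℤ (Set.range fun g => algebraMap k ℂ (Γ g)) →+*
        (algebraMap k ℂ).range :=
      (algebraMap (Algebra.adjoin ℤ (Set.range fun g => algebraMap k ℂ (Γ g))) ℂ).codRestrict
        (algebraMap k ℂ).range (fun a => h2 a a.2)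
    have h3 : IsIntegral (algebraMap k ℂ).range (x i) := by
      refine ⟨P.map φ, hP.map _, ?_⟩
      have hc : (algebraMap (algebraMap k ℂ).range ℂ).comp φ =
          algebraMap (Algebra.adjoin ℤ (Set.range fun g => algebraMap k ℂ (Γ g))) ℂ :=
        RingHom.ext fun _ => rfl
      rw [Polynomial.eval₂_map, hc]
      exact hPe
    have h4 : IsIntegral k (x i) := by
      obtain ⟨P', hP', hPe'⟩ := h3
      let e : k ≃+* (algebraMap k ℂ).range :=
        RingEquiv.ofBijective (algebraMap k ℂ).rangeRestrict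
          ⟨fun a b h => (algebraMap k ℂ).injective (congrArg Subtype.val h),
            (algebraMap k ℂ).rangeRestrict_surjective⟩
      refine ⟨P'.map e.symm.toRingHom, hP'.map _, ?_⟩
      rw [Polynomial.eval₂_map]
      have hc : (algebraMap k ℂ).comp e.symm.toRingHom =
          algebraMap (algebraMap k ℂ).range ℂ := by
        ext z
        have h5 : e (e.symm z) = z := e.apply_symm_apply z
        exact congrArg Subtype.val h5
      rw [hc]
      exact hPe'
    exact h4.isAlgebraic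
  · intro l i hi
    rw [ValuationSubring.valuation_le_one_iff]
    exact int_mem Γ (V l) (hVΓ l) (hconst i hi)
  · intro l
    obtain ⟨a, ha0, hAB, hI⟩ := hVy l y hy0 hyG
    refine ⟨Finset.univ.filter fun i =>
        ¬ (V l).valuation (aeval (a • y) (A i) * aeval (a • y) (B i)) = 1, ?_, ?_⟩
    · by_contra h
      push Not at h
      obtain ⟨I, hIE, hIc⟩ := Finset.exists_subset_card_eq (Nat.succ_le_of_lt h)
      obtain ⟨i, hi, h1⟩ := hI I hIc
      exact (Finset.mem_filter.1 (hIE hi)).2 h1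
    · intro i hi
      rw [Finset.mem_filter] at hi
      push Not at hi
      have h1 := hi (Finset.mem_univ i)
      have hA1 := (ValuationSubring.valuation_le_one_iff _ _).2 (hAB i).1
      have hB1 := (ValuationSubring.valuation_le_one_iff _ _).2 (hAB i).2
      rw [map_mul] at h1
      have hA2 : (V l).valuation (aeval (a • y) (A i)) = 1 := by
        refine le_antisymm hA1 ?_
        by_contra h
        push Not at h
        have h2 := (mul_le_of_le_one_right' hB1).trans_lt h
        rw [h1] at h2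
        exact lt_irrefl _ h2
      have hB2 : (V l).valuation (aeval (a • y) (B i)) = 1 := by
        rw [hA2, one_mul] at h1
        exact h1
      have h3 : (c i : ℂ) * aeval (a • y) (B i) * s i = aeval (a • y) (A i) := by
        rw [aeval_smul' (hA i), aeval_smul' (hB i), ← hxy i]
        ring
      have h4 := congrArg (V l).valuation h3
      rw [map_mul, map_mul, hA2, hB2, mul_one, v_nat_pow' (V l) (hp l).1 (hV1 l) (hc0 i)] at h4
      rw [mul_comm]
      exact h4

theorem mainFK (K : Subfield ℂ) {κ : Type*}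
    {N n m : ℕ} (G : κ → MvPolynomial (Fin (N + 1)) K)
    (hG : ∀ i, ∃ e, (G i).IsHomogeneous e) (A B : Fin n → MvPolynomial (Fin (N + 1)) K)
    (d : Fin n → ℕ) (hA : ∀ i, (A i).IsHomogeneous (d i)) (hB : ∀ i, (B i).IsHomogeneous (d i))
    (hdis : ∀ I : Finset (Fin n), I.card = m + 1 → ∀ y : Fin (N + 1) → ℂ,
      (∀ i, aeval y (G i) = 0) → (∀ i ∈ I, aeval y (A i) * aeval y (B i) = 0) → y = 0)
    (R : Fin n → Polynomial (Polynomial K)) (hR : ∀ i, (R i).Monic) (T : ℕ)
    (hT : ∀ i u w, ((R i).coeff u).coeff w ≠ 0 → u ≤ T ∧ w ≤ T)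
    (Γ : Finset ℂ) (hΓ : ∀ γ ∈ Γ, γ ∈ K) :
    ∃ D : ℕ, ∀ c : Fin n → ℕ, SpreadF (m + 2) T D c →
      ∀ (r : ℕ) (cls : Fin n → Option (Fin r)) (q : Fin n → ℕ) (x s : Fin n → ℂ),
      (∀ i, 0 < q i) →
      (∀ i, cls i = none → IsIntegral (Algebra.adjoin ℤ (Γ : Set ℂ)) (x i)) →
      (∀ i j l, cls i = some l → cls j = some l →
        IsIntegral (Algebra.adjoin ℤ {x i}) (x j) ∧
        Polynomial.eval₂ (Polynomial.aeval (x i) : Polynomial ℂ →ₐ[ℂ] ℂ).toRingHom (x j)
          (W282.ZP.Psi (q i * q j)) = 0) →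
      (∀ i, Polynomial.eval₂ (Polynomial.aeval (x i) : Polynomial K →ₐ[K] ℂ).toRingHom (s i)
        (R i) = 0) →
      ∀ y : Fin (N + 1) → ℂ, y ≠ 0 → (∀ i, aeval y (G i) = 0) →
      (∀ i, (c i : ℂ) * aeval y (B i) * s i = aeval y (A i)) →
      ∀ S : Finset (Fin n), AlgebraicIndependent K (fun i : S => x i) →
        S.card + n ≤ r + m := by
  classical
  let k := algebraicClosure K ℂ
  have hcl : IsAlgClosure K k := inferInstance
  have hac : IsAlgClosed k := hcl.isAlgClosed
  have hmap : ∀ (y : Fin (N + 1) → ℂ) (P : MvPolynomial (Fin (N + 1)) K),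
      aeval y (MvPolynomial.map (algebraMap K k) P) = aeval y P := fun y P =>
    MvPolynomial.aeval_map_algebraMap k y P
  let Γ' : Γ → k := fun γ => algebraMap K k ⟨γ, hΓ γ γ.2⟩
  have hΓ' : (Set.range fun g => algebraMap k ℂ (Γ' g)) = (Γ : Set ℂ) := by
    ext z
    constructor
    · rintro ⟨g, rfl⟩
      exact g.2
    · intro hz
      exact ⟨⟨z, hz⟩, rfl⟩
  obtain ⟨D, hD⟩ := mainF (k := k) (m := m) (fun i => MvPolynomial.map (algebraMap K k) (G i))
    (fun i => by
      obtain ⟨e, he⟩ := hG i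
      exact ⟨e, he.map _⟩)
    (fun i => MvPolynomial.map (algebraMap K k) (A i))
    (fun i => MvPolynomial.map (algebraMap K k) (B i)) d (fun i => (hA i).map _)
    (fun i => (hB i).map _)
    (fun I hI y h1 h2 => hdis I hI y (fun i => by rw [← hmap]; exact h1 i)
      (fun i hi => by rw [← hmap, ← hmap y (B i)]; exact h2 i hi))
    (fun i => (R i).map (Polynomial.mapRingHom (algebraMap K k))) (fun i => (hR i).map _) T
    (by
      intro i u w h0
      rw [Polynomial.coeff_map, Polynomial.coe_mapRingHom, Polynomial.coeff_map] at h0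
      exact hT i u w fun h1 => h0 (by rw [h1, map_zero])) Γ'
  refine ⟨D, fun c hc r cls q x s hq hconst hrel hRs y hy0 hyG hxy S hS => ?_⟩
  refine hD c hc r cls q x s hq ?_ hrel ?_ y hy0 (fun i => (hmap y _).trans (hyG i)) ?_ S ?_
  · intro i hi
    rw [hΓ']
    exact hconst i hi
  · intro i
    rw [Polynomial.eval₂_map]
    have h1 : ((Polynomial.aeval (x i) : Polynomial k →ₐ[k] ℂ).toRingHom).comp
        (Polynomial.mapRingHom (algebraMap K k)) =
        (Polynomial.aeval (x i) : Polynomial K →ₐ[K] ℂ).toRingHom := by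
      ext z
      · simp
      · simp
    rw [h1]
    exact hRs i
  · intro i
    rw [hmap, hmap]
    exact hxy i
  · exact hS.extendScalars k

/-- Independence on polygons does not change if the rows are multiplied by numbers. -/
theorem Cyc.mul_row {n L B : ℕ} {a : Fin L → Fin n → ℕ} (ha : Cyc B a) (v : Fin L → ℕ)
    (hv : ∀ l, 0 < v l) : Cyc B fun l i => a l i * v l := by
  intro U hU i j t ht hev hsq
  refine ha U hU i j t ht hev ?_
  refine isSquare_of_mul_sq' (m := ∏ l ∈ U, v l) (Finset.prod_pos fun l _ => hv l) ?_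
  convert hsq using 1
  rw [← Finset.prod_pow, ← Finset.prod_mul_distrib]
  exact Finset.prod_congr rfl fun l _ => by ring

theorem spreadF_of {n L T D k : ℕ} (hk : 1 ≤ k) (a : Fin L → Fin n → ℕ) (ha0 : ∀ l i, 0 < a l i)
    (ha : Cyc (T ^ 4) a) (h : ∀ l : Fin L, ∃ p, p.Prime ∧ p ∣ k + l ∧ D + L < p) :
    SpreadF L T D (famL L a k) := by
  classical
  choose p hp hpk hpD using h
  have hfac : ∀ l i, (famL L a k i).factorization (p l) =
      a l i * (k + l).factorization (p l) := by
    intro l i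
    rw [famL, Nat.factorization_prod (fun l' _ => pow_ne_zero _ (by omega))]
    simp only [Finsupp.coe_finsetSum, Finset.sum_apply]
    rw [Finset.sum_eq_single l]
    · rw [Nat.factorization_pow]
      rfl
    · intro l' _ hne
      rw [Nat.factorization_pow]
      have h1 : ¬ p l ∣ k + l' := by
        intro hd
        have h2 := hpk l
        have h3 : (p l : ℤ) ∣ ((k + l : ℕ) : ℤ) - ((k + l' : ℕ) : ℤ) :=
          dvd_sub (Int.natCast_dvd_natCast.2 h2) (Int.natCast_dvd_natCast.2 hd)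
        have h4 : ((k + l : ℕ) : ℤ) - ((k + l' : ℕ) : ℤ) = (l : ℤ) - (l' : ℤ) := by
          push_cast
          ring
        rw [h4] at h3
        have h5 : (l : ℤ) - (l' : ℤ) ≠ 0 := by
          intro h0
          apply hne
          apply Fin.ext
          omega
        have h6 := Int.le_of_dvd (abs_pos.2 h5) ((dvd_abs _ _).2 h3)
        have h7 := hpD l
        have h9 := l.2
        have h10 := l'.2
        have h8 : |(l : ℤ) - (l' : ℤ)| ≤ L := by
          rw [abs_le]
          constructor <;> omega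
        omega
      show a l' i * (k + l').factorization (p l) = 0
      rw [Nat.factorization_eq_zero_of_not_dvd h1, mul_zero]
    · intro hl
      exact absurd (Finset.mem_univ l) hl
  have hpos : ∀ l : Fin L, 0 < (k + l).factorization (p l) := fun l =>
    (hp l).factorization_pos_of_dvd (by omega) (hpk l)
  refine ⟨p, fun l => ⟨hp l, by have := hpD l; omega⟩, fun l i => ?_, ?_⟩
  · show 0 < (famL L a k i).factorization (p l)
    rw [hfac]
    exact Nat.mul_pos (ha0 l i) (hpos l)
  · have h1 := ha.mul_row (fun l => (k + l).factorization (p l)) hpos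
    convert h1 using 3 with l i
    exact hfac l i

theorem countF {n L T : ℕ} (D : ℕ) (a : Fin L → Fin n → ℕ) (ha0 : ∀ l i, 0 < a l i)
    (ha : Cyc (T ^ 4) a) (H : ℕ) :
    Set.ncard {k : ℕ | 1 ≤ k ∧ k ≤ H ∧ ¬ SpreadF L T D (famL L a k)} ≤
      L * (Nat.log 2 (H + L) + 1) ^ (D + L + 1) := by
  classical
  let S : Finset ℕ := (Finset.Icc 1 (H + L)).filter fun m => ∀ p, p.Prime → p ∣ m → p ≤ D + L
  have hsub : {k : ℕ | 1 ≤ k ∧ k ≤ H ∧ ¬ SpreadF L T D (famL L a k)} ⊆
      (((Finset.univ : Finset (Fin L)).biUnion fun l => S.image fun m => m - (l : ℕ)) : Finset ℕ)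
      := by
    rintro k ⟨hk1, hk2, hk3⟩
    have h1 : ∃ l : Fin L, ∀ p, p.Prime → p ∣ k + l → p ≤ D + L := by
      by_contra hcon
      push Not at hcon
      apply hk3
      refine spreadF_of hk1 a ha0 ha fun l => ?_
      obtain ⟨p, h2, h3, h4⟩ := hcon l
      exact ⟨p, h2, h3, h4⟩
    obtain ⟨l, hl⟩ := h1
    rw [Finset.mem_coe, Finset.mem_biUnion]
    refine ⟨l, Finset.mem_univ l, ?_⟩
    rw [Finset.mem_image]
    have h9 := l.2
    refine ⟨k + l, ?_, by omega⟩
    rw [Finset.mem_filter, Finset.mem_Icc]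
    exact ⟨⟨by omega, by omega⟩, hl⟩
  refine (Set.ncard_le_ncard hsub (Finset.finite_toSet _)).trans ?_
  rw [Set.ncard_coe_finset]
  refine Finset.card_biUnion_le.trans ?_
  have h2 : ∀ l ∈ (Finset.univ : Finset (Fin L)), (S.image fun m => m - (l : ℕ)).card ≤
      (Nat.log 2 (H + L) + 1) ^ (D + L + 1) := fun l _ =>
    Finset.card_image_le.trans (smooth_card (D + L) (H + L))
  refine (Finset.sum_le_sum h2).trans ?_
  rw [Finset.sum_const, Finset.card_univ, Fintype.card_fin, smul_eq_mul]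

end Pool.Agent.V11322.ZF
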