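import Pool.Agent.V11322.ZF.Core
import Pool.Agent.V11322.ZT.Main

/-!
A local criterion for Zilber-Pink in products of modular curves, powers of elliptic curves and tori,
with few places of residue characteristic zero (adapted from `V11322.ZT.Main`).
-/

set_option autoImplicit false

open MvPolynomial

namespace Pool.Agent.V11322.ZF

open Pool.Agent.W282.LF Pool.Agent.W466.EP Pool.Agent.V11322.ZC Pool.Agent.W466.ZC
  Pool.Agent.V11322.ZT WeierstrassCurve WeierstrassCurve.Affine

/-- The number of places. -/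
def numP (n m q : ℕ) : ℕ := min (m + 1) (n - 1) + (q - 1) * 2 ^ q + 1

theorem numP_pos (n m q : ℕ) : 0 < numP n m q := Nat.succ_pos _

/-- Selection of places. -/
theorem Cyc.comp {n M L B : ℕ} {e : Fin M → Fin n → ℕ} (h : Cyc B e) {f : Fin L → Fin M}
    (hf : Function.Injective f) : Cyc B fun l i => e (f l) i := by
  classical
  intro U hU i j t ht hev hsq
  obtain ⟨l₀, hl₀⟩ := hU
  let ext : ∀ {β : Type}, (Fin L → β) → Fin M → β := fun g => Function.extend f g fun _ => g l₀
  have hext : ∀ {β : Type} (g : Fin L → β) (l : Fin L), ext g (f l) = g l := fun g l =>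
    hf.extend_apply g _ l
  refine h (U.map ⟨f, hf⟩) ⟨f l₀, Finset.mem_map.2 ⟨l₀, hl₀, rfl⟩⟩ (ext i) (ext j)
    (ext t) ?_ ?_ ?_
  · intro l hl
    obtain ⟨l', hl', rfl⟩ := Finset.mem_map.1 hl
    rw [Function.Embedding.coeFn_mk, hext, hext, hext]
    exact ht l' hl'
  · intro v
    have h1 : ∀ g : Fin L → Fin n, ((U.map ⟨f, hf⟩).filter fun l => ext g l = v).card =
        (U.filter fun l => g l = v).card := by
      intro g
      rw [Finset.filter_map, Finset.card_map]
      congr 1
      refine Finset.filter_congr fun l _ => ?_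
      rw [Function.comp_apply, Function.Embedding.coeFn_mk, hext]
    rw [h1, h1]
    exact hev v
  · rw [Finset.prod_map]
    simp only [Function.Embedding.coeFn_mk, hext]
    exact hsq

theorem mainLF {Λ : Type} [CommRing Λ] [IsDomain Λ] [Algebra Λ ℂ] {k : Type} [Field k]
    [Algebra k ℂ] [IsAlgClosed k] [Algebra Λ k] [IsScalarTower Λ k ℂ]
    (hinj : Function.Injective (algebraMap Λ k)) {κ : Type*}
    {N n r q m : ℕ} {kE : Fin r → ℕ} (G : κ → MvPolynomial (Fin (N + 1)) Λ)
    (hG : ∀ i, ∃ e, (G i).IsHomogeneous e)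
    (a b : Ind n kE q → MvPolynomial (Fin (N + 1)) Λ)
    (dg : Ind n kE q → ℕ) (ha : ∀ i, (a i).IsHomogeneous (dg i))
    (hb : ∀ i, (b i).IsHomogeneous (dg i)) (c : Ind n kE q → Λ)
    (𝔭 : Fin (numP n m q) → Ideal Λ) (h𝔭 : ∀ l, (𝔭 l).IsPrime)
    (hchar : ∀ l (t : ℕ), t ≠ 0 → (t : Λ) ∉ 𝔭 l)
    (hpos : ∀ l (F : Type) [Field F] (φ : Λ →+* F), RingHom.ker φ = 𝔭 l →
      ∀ I : Finset (Ind n kE q), I.card = m + 1 → ∀ y : Fin (N + 1) → F, y ≠ 0 →
      (∀ k, eval₂ φ y (G k) = 0) → ∃ i ∈ I, eval₂ φ y (a i) * eval₂ φ y (b i) ≠ 0)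
    (π : Fin (numP n m q) → Λ) (hπ : ∀ l, π l ∈ 𝔭 l)
    (hπ0 : ∀ l, π l ≠ 0)
    (e : Fin (numP n m q) → Ind n kE q → ℕ) (he : ∀ l i, 0 < e l i)
    (hc : ∀ l i, ∃ a b : Λ, a ∉ 𝔭 l ∧ b ∉ 𝔭 l ∧ a * c i = b * π l ^ e l i)
    (hcyc : Cyc 1 fun l (i : Fin n) => e l (Sum.inl i))
    (hdis : ∀ l (g : Fin r) (i j : Fin (kE g)), i ≠ j →
      e l (Sum.inr (Sum.inl ⟨g, i⟩)) ≠ e l (Sum.inr (Sum.inl ⟨g, j⟩)))
    (hlin : ∀ I : Finset (Fin (numP n m q)), I.card = q →
      ∀ β : Fin q → ℤ, (∀ l ∈ I, ∑ j, β j * (e l (Sum.inr (Sum.inr j)) : ℤ) = 0) → β = 0)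
    (A B : Fin r → Λ) {r' : ℕ} (cls : Fin n → Option (Fin r')) (qq : Fin n → ℕ)
    (x : Fin n → ℂ) (hqq : ∀ i, 0 < qq i) (hconst : ∀ i, cls i = none → IsIntegral Λ (x i))
    (hrel : ∀ i j l, cls i = some l → cls j = some l →
      IsIntegral (Algebra.adjoin ℤ {x i}) (x j) ∧
      Polynomial.eval₂ (Polynomial.aeval (x i) : Polynomial ℂ →ₐ[ℂ] ℂ).toRingHom
        (x j) (W282.ZP.Psi (qq i * qq j)) = 0)
    (P : ∀ g, Fin (kE g) → (crv (algebraMap Λ ℂ (A g)) (algebraMap Λ ℂ (B g))).Point)
    (cE : Fin r → ℕ) (hE : ∀ g, Bd0 Λ (P g) (cE g)) (u : Fin q → ℂ)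
    (M₂ : Submodule ℤ (Fin q → ℤ))
    (hM₂ : ∀ r ∈ M₂, ∀ V : ValuationSubring ℂ, (∀ a : Λ, V.valuation (algebraMap Λ ℂ a) ≤ 1) →
      V.valuation (∏ j, u j ^ r j) = 1)
    (y : Fin (N + 1) → ℂ) (hy0 : y ≠ 0) (hyG : ∀ i, aeval y (G i) = 0)
    (hx : ∀ i, algebraMap Λ ℂ (c (Sum.inl i)) * aeval y (b (Sum.inl i)) * x i =
      aeval y (a (Sum.inl i)))
    (hP : ∀ i : (g : Fin r) × Fin (kE g),
      (P i.1 i.2 = 0 ∧ aeval y (b (Sum.inr (Sum.inl i))) = 0) ∨
      algebraMap Λ ℂ (c (Sum.inr (Sum.inl i))) * aeval y (b (Sum.inr (Sum.inl i))) *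
        xx (P i.1 i.2) = aeval y (a (Sum.inr (Sum.inl i))))
    (hu : ∀ j, algebraMap Λ ℂ (c (Sum.inr (Sum.inr j))) * aeval y (b (Sum.inr (Sum.inr j))) *
      u j = aeval y (a (Sum.inr (Sum.inr j))))
    (S : Finset (Ind n kE q)) (hS : AlgebraicIndependent k (fun s : S => co' x P u s)) :
    S.card + n + ∑ g, cE g + Module.finrank ℤ M₂ ≤ r' + m := by
  classical
  by_contra hcon
  push Not at hcon
  have hinjC : Function.Injective (algebraMap Λ ℂ) := by
    rw [IsScalarTower.algebraMap_eq Λ k ℂ]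
    exact (algebraMap k ℂ).injective.comp hinj
  -- fixed relations
  have hβ : ∀ J : Finset (Fin q), ∃ β : Fin q → ℤ, β ∈ M₂ ∧ (∀ j, j ∉ J → β j = 0) ∧
      ((∃ r ∈ M₂, r ≠ 0 ∧ ∀ j, j ∉ J → r j = 0) → β ≠ 0) := by
    intro J
    by_cases h : ∃ r ∈ M₂, r ≠ 0 ∧ ∀ j, j ∉ J → r j = 0
    · obtain ⟨r, h1, h2, h3⟩ := h
      exact ⟨r, h1, h3, fun _ => h2⟩
    · exact ⟨0, M₂.zero_mem, fun _ _ => rfl, fun h1 => absurd h1 h⟩
  choose β hβM hβJ hβ0 using hβ
  let W : ℕ := 2 + ∑ J : Finset (Fin q), ∑ j, (β J j).natAbs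
  have hW : 2 ≤ W := Nat.le_add_right _ _
  have hWβ : ∀ J : Finset (Fin q), ∑ j, (β J j).natAbs < W := by
    intro J
    have h1 : ∑ j, (β J j).natAbs ≤ ∑ J : Finset (Fin q), ∑ j, (β J j).natAbs :=
      Finset.single_le_sum (f := fun J => ∑ j, (β J j).natAbs) (fun _ _ => Nat.zero_le _)
        (Finset.mem_univ J)
    change _ < 2 + ∑ J : Finset (Fin q), ∑ j, (β J j).natAbs
    omega
  have hW0 : 0 < W := by omega
  -- the scaling constants are not zero
  have hc0 : ∀ i, c i ≠ 0 := by
    intro i h0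
    obtain ⟨a', b', -, hb', hab⟩ := hc ⟨0, numP_pos n m q⟩ i
    rw [h0, mul_zero] at hab
    have h1 : b' ≠ 0 := by
      rintro rfl
      exact hb' (𝔭 _).zero_mem
    exact mul_ne_zero h1 (pow_ne_zero _ (hπ0 _)) hab.symm
  -- the classes of the modular coordinates in `S`
  have hSx : ∀ t : S.toLeft, (⟨Sum.inl (t : Fin n), Finset.mem_toLeft.1 t.2⟩ : S) =
      ⟨Sum.inl (t : Fin n), Finset.mem_toLeft.1 t.2⟩ := fun _ => rfl
  have hSsome : ∀ t : S.toLeft, ∃ k, cls t = some k := by
    intro t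
    have ht : Sum.inl (t : Fin n) ∈ S := Finset.mem_toLeft.1 t.2
    cases hc : cls t with
    | none =>
      have h1 := hS.transcendental ⟨Sum.inl t, ht⟩
      have h2 : IsAlgebraic k (x t) := by
        have h3 : IsAlgebraic Λ (x t) := (hconst t hc).isAlgebraic
        exact h3.extendScalars hinj
      exact (h1 h2).elim
    | some k => exact ⟨k, rfl⟩
  choose cl hcl using hSsome
  have hclinj : Function.Injective cl := by
    intro t t' htt
    by_contra hne
    refine TH526.ZL.not_algInd'' hS (i := ⟨Sum.inl (t : Fin n), Finset.mem_toLeft.1 t.2⟩)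
      (j := ⟨Sum.inl (t' : Fin n), Finset.mem_toLeft.1 t'.2⟩) ?_
      (hrel t t' (cl t) (hcl t) (by rw [htt]; exact hcl t')).1
    intro h
    apply hne
    have h1 := Sum.inl_injective (congrArg Subtype.val h)
    exact Subtype.ext h1
  have hclr : S.toLeft.card ≤ r' := by
    have h1 := Fintype.card_le_of_injective _ hclinj
    rwa [Fintype.card_coe, Fintype.card_fin] at h1
  -- one place
  let m₀ : ℕ := m - (∑ g, cE g + Module.finrank ℤ M₂ + S.toRight.card)
  let Lft : Fin (numP n m q) → Finset (Fin n) → Prop := fun l U =>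
    n ≤ U.card + m₀ ∧ ∑ g, cE g + Module.finrank ℤ M₂ + S.toRight.card ≤ m ∧
    (∀ i ∈ U, cls i ≠ none ∧ ∀ t ∈ S.toLeft, cls t ≠ cls i) ∧
    ∀ i ∈ U, ∀ j ∈ U, cls i = cls j →
      IsSquare (qq i * qq j * (1 * (e l (Sum.inl i) * e l (Sum.inl j))))
  have hone : ∀ l, (∃ U, Lft l U) ∨
      (∃ J : Finset (Fin q), β J ≠ 0 ∧
        ∑ j, β J j * (e l (Sum.inr (Sum.inr j)) : ℤ) = 0) := by
    intro l
    obtain ⟨ϖ, hϖ⟩ := IsAlgClosed.exists_pow_nat_eq (algebraMap Λ ℂ (π l)) hW0
    have htow : ∀ z : Λ, algebraMap k ℂ (algebraMap Λ k z) = algebraMap Λ ℂ z := fun z =>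
      (IsScalarTower.algebraMap_apply Λ k ℂ z).symm
    obtain ⟨ϖ', hϖ'⟩ := exists_alg (k := k) (algebraMap Λ k (π l)) hW0
      (by rw [htow]; exact hϖ)
    have hπC : algebraMap Λ ℂ (π l) ≠ 0 := fun h => hπ0 l (hinjC (h.trans (map_zero _).symm))
    have hϖ0 : ϖ ≠ 0 := by
      rintro rfl
      rw [zero_pow hW0.ne'] at hϖ
      exact hπC hϖ.symm
    have hϖ'0 : ϖ' ≠ 0 := by
      rintro rfl
      rw [map_zero] at hϖ'
      exact hϖ0 hϖ'.symm
    let w : Ind n kE q → k := Sum.elim (fun _ => 1)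
      (fun s => algebraMap Λ k (c (Sum.inr s)) / ϖ')
    have hw0 : ∀ s, w s ≠ 0 := by
      rintro (i | s)
      · exact one_ne_zero
      · exact div_ne_zero (fun h => hc0 _ (hinj (h.trans (map_zero _).symm))) hϖ'0
    have hind := algInd_smul hS (fun s : S => w s) (fun s => hw0 s)
    have hindΛ := hind.restrictScalars hinj
    have := h𝔭 l
    obtain ⟨V, hV1, hV2, hVx⟩ := TH526.ZL.exists_place1 (𝔭 l) _ hindΛ
    set v := V.valuation with hv
    have hunit : ∀ a : Λ, a ∉ 𝔭 l → v (algebraMap Λ ℂ a) = 1 := by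
      intro a ha
      refine le_antisymm (hV1 a) ?_
      by_contra h
      push Not at h
      exact ha ((hV2 a).1 h)
    have hnat : ∀ t : ℕ, t ≠ 0 → v (t : ℂ) = 1 := by
      intro t ht
      have h1 := hunit (t : Λ) (hchar l t ht)
      rwa [map_natCast] at h1
    set ρ := v ϖ with hρ
    have hg : v (algebraMap Λ ℂ (π l)) = ρ ^ W := by rw [← hϖ, map_pow]
    have hρ0 : 0 < ρ := zero_lt_iff.2 ((map_ne_zero v).2 hϖ0)
    have hρ1 : ρ < 1 := by
      by_contra h
      push Not at h
      have h1 := one_le_pow₀ h (n := W)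
      rw [← hg] at h1
      exact absurd ((hV2 (π l)).2 (hπ l)) (not_lt.2 h1)
    -- valuations of the scaling constants
    have hvc : ∀ i, v (algebraMap Λ ℂ (c i)) = ρ ^ (W * e l i) := by
      intro i
      obtain ⟨a', b', ha', hb', hab⟩ := hc l i
      have h5 := congrArg (fun z => v (algebraMap Λ ℂ z)) hab
      simp only [map_mul, map_pow, hunit a' ha', hunit b' hb', one_mul] at h5
      rw [h5, hg, ← pow_mul]
    have hvSl : ∀ i, Sum.inl i ∈ S → v (x i) = 1 := by
      intro i hi
      have h1 := hVx ⟨Sum.inl i, hi⟩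
      change v (algebraMap k ℂ 1 * x i) = 1 at h1
      rwa [map_one, one_mul] at h1
    have hvSr : ∀ s, Sum.inr s ∈ S → v (algebraMap Λ ℂ (c (Sum.inr s)) * co P u s) = ρ := by
      intro s hs
      have h1 := hVx ⟨Sum.inr s, hs⟩
      have h2 : algebraMap k ℂ (algebraMap Λ k (c (Sum.inr s)) / ϖ') * co P u s =
          algebraMap Λ ℂ (c (Sum.inr s)) * co P u s / ϖ := by
        rw [map_div₀, htow, hϖ']
        ring
      change v (algebraMap k ℂ (algebraMap Λ k (c (Sum.inr s)) / ϖ') * co P u s) = 1 at h1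
      rw [h2, map_div₀, div_eq_one_iff_eq hρ0.ne'] at h1
      exact h1
    -- the good coordinates
    obtain ⟨c', hc', hab, hI⟩ := TH526.ZL.good_place G hG a b (hpos l) V hV1 hV2 y hy0 hyG
    have hsm : ∀ (P : MvPolynomial (Fin (N + 1)) Λ) (f : ℕ), P.IsHomogeneous f →
        aeval (c' • y) P = c' ^ f * aeval y P := by
      intro P f hP
      have h1 := eval_smul (hP.map (algebraMap Λ ℂ)) c' y
      rwa [eval_map, eval_map, ← aeval_def, ← aeval_def] at h1
    let T : Finset (Ind n kE q) := Finset.univ.filter fun s =>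
      v (aeval (c' • y) (a s) * aeval (c' • y) (b s)) = 1
    have hTc : (Finset.univ.filter fun s : Ind n kE q =>
      ¬ v (aeval (c' • y) (a s) * aeval (c' • y) (b s)) = 1).card ≤ m := by
      by_contra h
      push Not at h
      obtain ⟨I, hIE, hIc⟩ := Finset.exists_subset_card_eq (Nat.succ_le_of_lt h)
      obtain ⟨i, hi, h1⟩ := hI I hIc
      exact (Finset.mem_filter.1 (hIE hi)).2 h1
    have hvT : ∀ s ∈ T, v (algebraMap Λ ℂ (c s) * co' x P u s) = 1 := by
      intro s hs
      have h1 := (Finset.mem_filter.1 hs).2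
      have ha1 := (ValuationSubring.valuation_le_one_iff V _).2 (hab s).1
      have hb1 := (ValuationSubring.valuation_le_one_iff V _).2 (hab s).2
      rw [← hv] at ha1 hb1
      rw [map_mul] at h1
      have ha2 : v (aeval (c' • y) (a s)) = 1 := by
        refine le_antisymm ha1 ?_
        by_contra hlt
        push Not at hlt
        have h2 : v (aeval (c' • y) (a s)) * v (aeval (c' • y) (b s)) < 1 :=
          (mul_le_of_le_one_right' hb1).trans_lt hlt
        rw [h1] at h2
        exact lt_irrefl _ h2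
      have hb2 : v (aeval (c' • y) (b s)) = 1 := by rwa [ha2, one_mul] at h1
      have h3 : algebraMap Λ ℂ (c s) * aeval (c' • y) (b s) * co' x P u s =
          aeval (c' • y) (a s) := by
        rw [hsm _ _ (ha s), hsm _ _ (hb s)]
        have h4 : algebraMap Λ ℂ (c s) * aeval y (b s) * co' x P u s = aeval y (a s) := by
          rcases s with i | i | j
          · exact hx i
          · rcases hP i with ⟨-, h5⟩ | h5
            · exfalso
              rw [hsm _ _ (hb (Sum.inr (Sum.inl i))), h5, mul_zero, map_zero] at hb2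
              exact zero_ne_one hb2
            · exact h5
          · exact hu j
        rw [← h4]
        ring
      have h4 := congrArg v h3
      rw [map_mul, map_mul, hb2, mul_one, ha2, ← map_mul] at h4
      exact h4
    have hTl : ∀ i, Sum.inl i ∈ T → v (x i) * (ρ ^ W) ^ e l (Sum.inl i) = 1 := by
      intro i hi
      have h1 := hvT _ hi
      rw [map_mul, hvc] at h1
      rw [mul_comm, ← pow_mul]
      exact h1
    have hTl1 : ∀ i, Sum.inl i ∈ T → 1 < v (x i) := by
      intro i hi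
      by_contra hle
      push Not at hle
      have h2 : v (x i) * (ρ ^ W) ^ e l (Sum.inl i) < 1 := by
        refine (mul_le_of_le_one_left' hle).trans_lt ?_
        rw [← pow_mul]
        exact pow_lt_one₀ zero_le hρ1 (Nat.mul_pos hW0 (he l _)).ne'
      rw [hTl i hi] at h2
      exact lt_irrefl _ h2
    have hdisj : Disjoint T S := by
      rw [Finset.disjoint_left]
      rintro (i | s) hT hS'
      · have h1 := hTl1 i hT
        rw [hvSl i hS'] at h1
        exact lt_irrefl _ h1
      · have h1 := hvT _ hT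
        change v (algebraMap Λ ℂ (c (Sum.inr s)) * co P u s) = 1 at h1
        rw [hvSr s hS'] at h1
        exact hρ1.ne h1
    -- the other coordinates
    let F : Finset (Ind n kE q) := (T ∪ S)ᶜ
    have hFcard : F.card + S.card ≤ m := by
      have h1 : F.card + (T ∪ S).card = Fintype.card (Ind n kE q) :=
        Finset.card_compl_add_card _
      rw [Finset.card_union_of_disjoint hdisj] at h1
      have h2 := Finset.card_filter_add_card_filter_not
        (s := (Finset.univ : Finset (Ind n kE q)))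
        (fun s => v (aeval (c' • y) (a s) * aeval (c' • y) (b s)) = 1)
      rw [Finset.card_univ] at h2
      have h3 : T.card = (Finset.univ.filter fun s : Ind n kE q =>
        v (aeval (c' • y) (a s) * aeval (c' • y) (b s)) = 1).card := rfl
      omega
    have hF2 : F.toLeft.card + F.toRight.card = F.card := Finset.card_toLeft_add_card_toRight
    have hF3 : F.toRight.toLeft.card + F.toRight.toRight.card = F.toRight.card :=
      Finset.card_toLeft_add_card_toRight
    have hnotF : ∀ s, s ∉ F → s ∈ T ∨ s ∈ S := by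
      intro s hs
      rw [Finset.mem_compl, not_not, Finset.mem_union] at hs
      exact hs
    let δ : (((g : Fin r) × Fin (kE g)) ⊕ Fin q) → ℕ := fun s => if Sum.inr s ∈ S then 1 else 0
    have hδ1 : ∀ s, δ s ≤ 1 := by
      intro s
      change (if Sum.inr s ∈ S then 1 else 0) ≤ 1
      split_ifs <;> omega
    have hvF : ∀ s, Sum.inr s ∉ F →
        v (algebraMap Λ ℂ (c (Sum.inr s)) * co P u s) = ρ ^ δ s := by
      intro s hs
      change _ = ρ ^ (if Sum.inr s ∈ S then 1 else 0)
      split_ifs with h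
      · rw [hvSr s h, pow_one]
      · rw [pow_zero]
        exact hvT _ ((hnotF _ hs).resolve_right h)
    let Fg : ∀ g, Finset (Fin (kE g)) := fun g =>
      Finset.univ.filter fun i => Sum.inr (Sum.inl ⟨g, i⟩) ∈ F
    have hFg : F.toRight.toLeft.card = ∑ g, (Fg g).card := by
      rw [← Finset.card_sigma]
      congr 1
      ext ⟨g, i⟩
      rw [Finset.mem_toLeft, Finset.mem_toRight, Finset.mem_sigma]
      refine ⟨fun h => ⟨Finset.mem_univ _, Finset.mem_filter.2 ⟨Finset.mem_univ _, h⟩⟩,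
        fun h => (Finset.mem_filter.1 h.2).2⟩
    -- the elliptic part
    have hell : ∀ g, cE g ≤ (Fg g).card := by
      intro g
      have h1 : ∀ i, i ∈ (Fg g)ᶜ → ∃ f : ℕ, 0 < f ∧
          f + δ (Sum.inl ⟨g, i⟩) = W * e l (Sum.inr (Sum.inl ⟨g, i⟩)) ∧
          v (xx (P g i)) * ρ ^ f = 1 := by
        intro i hi
        have hi' : Sum.inr (Sum.inl ⟨g, i⟩) ∉ F := by
          intro h
          exact (Finset.mem_compl.1 hi) (Finset.mem_filter.2 ⟨Finset.mem_univ _, h⟩)
        have h5 := hvF (Sum.inl ⟨g, i⟩) hi'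
        change v (algebraMap Λ ℂ (c (Sum.inr (Sum.inl ⟨g, i⟩))) * xx (P g i)) = _ at h5
        rw [map_mul, hvc] at h5
        have h8 := he l (Sum.inr (Sum.inl ⟨g, i⟩))
        have h9 : 2 ≤ W * e l (Sum.inr (Sum.inl ⟨g, i⟩)) := by nlinarith
        have h10 := hδ1 (Sum.inl ⟨g, i⟩)
        refine ⟨W * e l (Sum.inr (Sum.inl ⟨g, i⟩)) - δ (Sum.inl ⟨g, i⟩), by omega, by omega, ?_⟩
        have h6 : W * e l (Sum.inr (Sum.inl ⟨g, i⟩)) =
            (W * e l (Sum.inr (Sum.inl ⟨g, i⟩)) - δ (Sum.inl ⟨g, i⟩)) + δ (Sum.inl ⟨g, i⟩) := by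
          omega
        rw [h6, pow_add] at h5
        have h7 : ρ ^ δ (Sum.inl ⟨g, i⟩) ≠ 0 := pow_ne_zero _ hρ0.ne'
        refine mul_right_cancel₀ h7 ?_
        rw [one_mul, mul_assoc, mul_comm]
        exact h5
      have h9 := hE g V (Fg g)ᶜ hV1 hnat (hV1 _) (hV1 _) ?_ ?_
      · rw [compl_compl] at h9
        exact h9
      · intro i hi
        obtain ⟨f, hf0, -, hf⟩ := h1 i hi
        by_contra hle
        push Not at hle
        have h2 : v (xx (P g i)) * ρ ^ f < 1 :=
          (mul_le_of_le_one_left' hle).trans_lt (pow_lt_one₀ zero_le hρ1 hf0.ne')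
        rw [hf] at h2
        exact lt_irrefl _ h2
      · intro i hi j hj hij heq
        obtain ⟨f, hf0, hf1, hf⟩ := h1 i hi
        obtain ⟨f', hf0', hf1', hf'⟩ := h1 j hj
        change v (xx (P g i)) = v (xx (P g j)) at heq
        rw [heq] at hf
        have h2 : v (xx (P g j)) ≠ 0 := by
          intro h0
          rw [h0, zero_mul] at hf
          exact zero_ne_one hf
        have h3 := mul_left_cancel₀ h2 (hf.trans hf'.symm)
        have h4 : f = f' := pow_inj_lt hρ0 hρ1 h3
        have h5 := hdis l g i j hij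
        have h6 := hδ1 (Sum.inl ⟨g, i⟩)
        have h7 := hδ1 (Sum.inl ⟨g, j⟩)
        rcases lt_or_gt_of_ne h5 with h8 | h8
        · have h9 : W * (e l (Sum.inr (Sum.inl ⟨g, i⟩)) + 1) ≤
              W * e l (Sum.inr (Sum.inl ⟨g, j⟩)) := Nat.mul_le_mul_left W h8
          rw [mul_add, mul_one] at h9
          omega
        · have h9 : W * (e l (Sum.inr (Sum.inl ⟨g, j⟩)) + 1) ≤
              W * e l (Sum.inr (Sum.inl ⟨g, i⟩)) := Nat.mul_le_mul_left W h8
          rw [mul_add, mul_one] at h9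
          omega
    have hle : ∑ g, cE g ≤ F.toRight.toLeft.card := by
      rw [hFg]
      exact Finset.sum_le_sum fun g _ => hell g
    by_cases hbig : F.toRight.toRight.card < Module.finrank ℤ M₂
    · -- a relation in the multiplicative part
      right
      obtain ⟨r, hr, hr0, hrF⟩ := exists_rel M₂ F.toRight.toRight hbig
      refine ⟨F.toRight.toRightᶜ, ?_, ?_⟩
      · refine hβ0 _ ⟨r, hr, hr0, fun j hj => ?_⟩
        rw [Finset.mem_compl, not_not] at hj
        exact hrF j hj
      · refine tor_place (v := v) hρ0 hρ1 u F.toRight.toRightᶜ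
          (fun j => e l (Sum.inr (Sum.inr j)))
          (fun j => δ (Sum.inr j)) (fun j => hδ1 _) ?_ (β F.toRight.toRightᶜ) (hβJ _) (hWβ _)
          (hM₂ _ (hβM _) V hV1)
        intro j hj
        rw [Finset.mem_compl, Finset.mem_toRight, Finset.mem_toRight] at hj
        have h5 := hvF (Sum.inr j) hj
        change v (algebraMap Λ ℂ (c (Sum.inr (Sum.inr j))) * u j) = _ at h5
        rw [map_mul, hvc, mul_comm] at h5
        exact h5
    · left
      push Not at hbig
      have hTm : T.toLeft.card + S.toLeft.card + F.toLeft.card = n := by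
        have h1 : Disjoint T.toLeft S.toLeft := by
          rw [Finset.disjoint_left]
          intro i h1 h2
          exact Finset.disjoint_left.1 hdisj (Finset.mem_toLeft.1 h1) (Finset.mem_toLeft.1 h2)
        have h2 : (T.toLeft ∪ S.toLeft)ᶜ = F.toLeft := by
          ext i
          rw [Finset.mem_compl, Finset.mem_union, Finset.mem_toLeft, Finset.mem_toLeft,
            Finset.mem_toLeft, Finset.mem_compl, Finset.mem_union]
        have h3 := Finset.card_compl_add_card (T.toLeft ∪ S.toLeft)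
        rw [h2, Finset.card_union_of_disjoint h1, Fintype.card_fin] at h3
        omega
      have hSLR : S.toLeft.card + S.toRight.card = S.card := Finset.card_toLeft_add_card_toRight
      refine ⟨T.toLeft, by omega, by omega, ?_, ?_⟩
      · intro i hi
        have h1 := hTl1 i (Finset.mem_toLeft.1 hi)
        refine ⟨fun hc => absurd h1 (not_lt.2 (TH526.ZL.mem_of_int V hV1 (hconst i hc))), ?_⟩
        intro t ht h
        have hk := hcl ⟨t, ht⟩
        have h3 : v (x i) ≤ 1 := ((W282.ZP.Psi_spec (Nat.mul_pos (hqq t) (hqq i))).2.2 ℂ V _ _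
          (hrel t i (cl ⟨t, ht⟩) hk (by rw [← h]; exact hk)).2).1
          (hvSl t (Finset.mem_toLeft.1 ht)).le
        exact absurd h1 (not_lt.2 h3)
      · intro i hi j hj hcls
        have h1 := hTl1 i (Finset.mem_toLeft.1 hi)
        have hk : ∃ k, cls i = some k := by
          cases hc : cls i with
          | none => exact absurd h1 (not_lt.2 (TH526.ZL.mem_of_int V hV1 (hconst i hc)))
          | some k => exact ⟨k, rfl⟩
        obtain ⟨k, hk⟩ := hk
        have h1 := TH526.ZL.sq_tie' (Nat.mul_pos (hqq i) (hqq j)) (hrel i j k hk (hcls ▸ hk)).2 V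
          (g := ρ ^ W) (a := 1) (b := 1) (a' := 1) (b' := 1)
          (pow_lt_one₀ zero_le hρ1 hW0.ne')
          (hTl i (Finset.mem_toLeft.1 hi)) (hTl j (Finset.mem_toLeft.1 hj))
          (hTl1 i (Finset.mem_toLeft.1 hi)) rfl rfl
        simpa using h1
  -- the places of the two kinds
  let FM : Finset (Fin (numP n m q)) := Finset.univ.filter fun l => ∃ U, Lft l U
  let FT : Finset (Fin (numP n m q)) := Finset.univ.filter fun l =>
    ∃ J : Finset (Fin q), β J ≠ 0 ∧ ∑ j, β J j * (e l (Sum.inr (Sum.inr j)) : ℤ) = 0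
  have hcover : numP n m q ≤ FM.card + FT.card := by
    calc numP n m q = (Finset.univ : Finset (Fin (numP n m q))).card := by
            rw [Finset.card_univ, Fintype.card_fin]
      _ ≤ (FM ∪ FT).card := by
            refine Finset.card_le_card fun l _ => ?_
            rcases hone l with h | h
            · exact Finset.mem_union_left _ (Finset.mem_filter.2 ⟨Finset.mem_univ _, h⟩)
            · exact Finset.mem_union_right _ (Finset.mem_filter.2 ⟨Finset.mem_univ _, h⟩)
      _ ≤ _ := Finset.card_union_le _ _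
  have hFT : FT.card ≤ (q - 1) * 2 ^ q := by
    by_contra hlt
    push Not at hlt
    have hch : ∀ l, ∃ J : Finset (Fin q), l ∈ FT → β J ≠ 0 ∧
        ∑ j, β J j * (e l (Sum.inr (Sum.inr j)) : ℤ) = 0 := by
      intro l
      by_cases hl : l ∈ FT
      · obtain ⟨J, h⟩ := (Finset.mem_filter.1 hl).2
        exact ⟨J, fun _ => h⟩
      · exact ⟨∅, fun h => absurd h hl⟩
    choose Jf hJf using hch
    obtain ⟨J, -, hJ⟩ := Finset.exists_lt_card_fiber_of_mul_lt_card_of_maps_to (s := FT)
      (t := (Finset.univ : Finset (Finset (Fin q)))) (f := Jf) (n := q - 1)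
      (fun _ _ => Finset.mem_univ _) (by
        rw [Finset.card_univ, Fintype.card_finset, Fintype.card_fin, mul_comm]
        exact hlt)
    have hJq : q ≤ (FT.filter fun l => Jf l = J).card := by omega
    obtain ⟨I, hIJ, hIq⟩ := Finset.exists_subset_card_eq hJq
    have hne : (FT.filter fun l => Jf l = J).Nonempty := by
      rw [← Finset.card_pos]
      omega
    obtain ⟨l, hl⟩ := hne
    rw [Finset.mem_filter] at hl
    have h1 := (hJf l hl.1).1
    rw [hl.2] at h1
    apply h1
    refine hlin I hIq (β J) fun l' hl' => ?_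
    have h3 := Finset.mem_filter.1 (hIJ hl')
    have h2 := (hJf l' h3.1).2
    rwa [h3.2] at h2
  have hFMc : min (m + 1) (n - 1) + 1 ≤ FM.card := by
    have h1 : numP n m q = min (m + 1) (n - 1) + (q - 1) * 2 ^ q + 1 := rfl
    omega
  have hne : FM.Nonempty := by
    rw [← Finset.card_pos]
    omega
  have hSLR : S.toLeft.card + S.toRight.card = S.card := Finset.card_toLeft_add_card_toRight
  obtain ⟨l₀, hl₀⟩ := hne
  obtain ⟨U₀, hU₀, hmle, hU₀c, -⟩ := (Finset.mem_filter.1 hl₀).2
  have hcon' : r' + m₀ < S.toLeft.card + n := by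
    change r' + (m - (∑ g, cE g + Module.finrank ℤ M₂ + S.toRight.card)) < _
    omega
  have hm₀ : m₀ + 2 ≤ n := by
    by_contra hlt
    push Not at hlt
    have h1 : S.toLeft.card = r' := by omega
    have h2 : 0 < U₀.card := by omega
    obtain ⟨i, hi⟩ := Finset.card_pos.1 h2
    obtain ⟨h3, h4⟩ := hU₀c i hi
    have hsurj : Function.Surjective cl := by
      have h5 : Function.Bijective cl := (Fintype.bijective_iff_injective_and_card cl).2
        ⟨hclinj, by rw [Fintype.card_coe, Fintype.card_fin, h1]⟩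
      exact h5.2
    cases hc : cls i with
    | none => exact h3 hc
    | some k =>
      obtain ⟨t, ht⟩ := hsurj k
      refine h4 t t.2 ?_
      rw [hcl t, ht, hc]
  have hmm : m₀ ≤ m := Nat.sub_le _ _
  have hFMc' : m₀ + 2 ≤ FM.card := by omega
  obtain ⟨FM', hFM', hFMk⟩ := Finset.exists_subset_card_eq hFMc'
  let f : Fin (m₀ + 2) → Fin (numP n m q) := fun l => FM'.orderEmbOfFin hFMk l
  have hf : Function.Injective f := (FM'.orderEmbOfFin hFMk).injective
  have hfm : ∀ l, ∃ U, Lft (f l) U := fun l =>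
    (Finset.mem_filter.1 (hFM' (Finset.orderEmbOfFin_mem FM' hFMk l))).2
  choose U hU using hfm
  obtain ⟨i, j, T, hT, hij, hev⟩ := exists_cycle (m := m₀) cls S.toLeft
    (fun t ht h => by
      have hk := hcl ⟨t, ht⟩
      simp only at hk
      rw [hk] at h
      cases h)
    (fun t ht t' ht' h => by
      have h1 : cl ⟨t, ht⟩ = cl ⟨t', ht'⟩ := by
        have h2 := hcl ⟨t, ht⟩
        have h3 := hcl ⟨t', ht'⟩
        simp only at h2 h3
        rw [h, h3] at h2
        exact (Option.some.inj h2).symm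
      exact congrArg Subtype.val (hclinj h1))
    hcon' U (fun l => (hU l).1) (fun l => (hU l).2.2.1)
  exact hcyc.comp hf T hT i j (fun _ => 1)
    (fun l _ => ⟨(hij l).2.2.1, Nat.one_pos, le_refl _⟩) hev
    (sq_of_cycle qq hqq i j _ T
      (fun l _ => (hU l).2.2.2 _ (hij l).1 _ (hij l).2.1 (hij l).2.2.2) hev)

end Pool.Agent.V11322.ZF
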