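import Pool.Agent.V11322.ZF.Main

/-!
Weierstrass families `y² = x³ - 3 a² x + 2 a³ + c b` with scaling constants `c` having `m + 2` large
primes.
-/

open Function UpperHalfPlane H294ZP MvPolynomial Pool.Agent.W466.ZC Pool.Agent.TH526.ZL

namespace Pool.Agent.V11322.ZF

/-- The level one equation `S - J`. -/
theorem levelOne_le {k : Type} [Field k] (u w : ℕ)
    (h0 : ((Polynomial.X - Polynomial.C Polynomial.X : Polynomial (Polynomial k)).coeff u).coeff w
      ≠ 0) : (u ≤ 1 ∧ w ≤ 1) ∧
        (((Polynomial.X - Polynomial.C Polynomial.X : Polynomial (Polynomial k)).coeff u).coeff w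
          = 1 ∨
        ((Polynomial.X - Polynomial.C Polynomial.X : Polynomial (Polynomial k)).coeff u).coeff w
          = -1) := by
  rw [Polynomial.coeff_sub, Polynomial.coeff_X, Polynomial.coeff_C] at h0 ⊢
  by_cases h1 : u = 1
  · subst h1
    rw [if_pos rfl, if_neg one_ne_zero, sub_zero, Polynomial.coeff_one] at h0 ⊢
    by_cases h2 : w = 0
    · exact ⟨⟨le_refl _, by omega⟩, Or.inl (if_pos h2)⟩
    · rw [if_neg h2] at h0
      exact (h0 rfl).elim
  · rw [if_neg (Ne.symm h1), zero_sub] at h0 ⊢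
    by_cases h2 : u = 0
    · rw [if_pos h2, Polynomial.coeff_neg, Polynomial.coeff_X] at h0 ⊢
      by_cases h3 : w = 1
      · refine ⟨⟨by omega, by omega⟩, Or.inr ?_⟩
        rw [if_pos h3.symm]
      · rw [if_neg (Ne.symm h3)] at h0
        exact (h0 neg_zero).elim
    · rw [if_neg h2, neg_zero, Polynomial.coeff_zero] at h0
      exact (h0 rfl).elim

theorem mainW {k : Type} [Field k] [Algebra k ℂ] [IsAlgClosed k] [CharZero k] {κ : Type*}
    {N n m : ℕ} (G : κ → MvPolynomial (Fin (N + 1)) k)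
    (hG : ∀ i, ∃ e, (G i).IsHomogeneous e) (a b : Fin n → MvPolynomial (Fin (N + 1)) k)
    (d : Fin n → ℕ) (ha : ∀ i, (a i).IsHomogeneous (2 * d i))
    (hb : ∀ i, (b i).IsHomogeneous (6 * d i))
    (hdis : ∀ I : Finset (Fin n), I.card = m + 1 → ∀ y : Fin (N + 1) → ℂ,
      (∀ i, aeval y (G i) = 0) → (∀ i ∈ I, aeval y (a i) * aeval y (b i) = 0) → y = 0)
    {ι : Type*} [Finite ι] (Γ : ι → k) :
    ∃ D : ℕ, ∀ c : Fin n → ℕ, SpreadF (m + 2) 1 D c →
      ∀ (r : ℕ) (cls : Fin n → Option (Fin r)) (q : Fin n → ℕ) (x : Fin n → ℂ),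
      (∀ i, 0 < q i) →
      (∀ i, cls i = none → IsIntegral (Algebra.adjoin ℤ (Set.range fun g => algebraMap k ℂ (Γ g)))
        (x i)) →
      (∀ i j l, cls i = some l → cls j = some l →
        IsIntegral (Algebra.adjoin ℤ {x i}) (x j) ∧
        Polynomial.eval₂ (Polynomial.aeval (x i) : Polynomial ℂ →ₐ[ℂ] ℂ).toRingHom (x j)
          (W282.ZP.Psi (q i * q j)) = 0) →
      ∀ y : Fin (N + 1) → ℂ, y ≠ 0 → (∀ i, aeval y (G i) = 0) →
      (∀ i, x i * (27 * (c i : ℂ) * aeval y (b i) *
        (4 * aeval y (a i) ^ 3 + (c i : ℂ) * aeval y (b i))) = 6912 * (-27) * aeval y (a i) ^ 6) →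
      ∀ S : Finset (Fin n), AlgebraicIndependent k (fun i : S => x i) →
        S.card + n ≤ r + m := by
  classical
  obtain ⟨D, hD⟩ := good' G hG a b hdis Γ
  refine ⟨max D 3, fun c hc r cls q x hq hconst hrel y hy0 hyG hxy S hS => ?_⟩
  obtain ⟨p, hp, he, hcyc⟩ := hc
  choose V hV hVΓ' hVx hVy using fun l => hD (p l) (hp l).1
    (lt_of_le_of_lt (le_max_left _ _) (hp l).2) S _ hS
  have hVΓ : ∀ l g, algebraMap k ℂ (Γ g) ∈ V l := hVΓ'
  have hV1 : ∀ l, (V l).valuation (p l : ℂ) < 1 := fun l =>
    (ValuationSubring.mem_nonunits_iff _).1 (hV l)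
  have hc0 : ∀ i, c i ≠ 0 := by
    intro i h0
    have h1 : 0 < (c i).factorization (p ⟨0, Nat.succ_pos _⟩) := he ⟨0, Nat.succ_pos _⟩ i
    rw [h0] at h1
    simp at h1
  have hsmall : ∀ l (t : ℕ), t ≠ 0 → (∀ s, s.Prime → s ∣ t → s ≤ 3) →
      (V l).valuation (t : ℂ) = 1 := by
    intro l t ht hst
    rw [v_nat_pow' (V l) (hp l).1 (hV1 l) ht, Nat.factorization_eq_zero_of_not_dvd, pow_zero]
    intro h
    have h1 := hst _ (hp l).1 h
    have h2 := (hp l).2
    have h3 := le_max_right D 3
    omega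
  have hpd : ∀ (t u v : ℕ) (s : ℕ), s.Prime → s ∣ 2 ^ u * 3 ^ v → s ≤ 3 := by
    intro _ u v s hs h
    rcases (hs.dvd_mul).1 h with h | h
    · have := Nat.le_of_dvd (by norm_num) (hs.dvd_of_dvd_pow h)
      omega
    · exact Nat.le_of_dvd (by norm_num) (hs.dvd_of_dvd_pow h)
  refine coreF (m := m) (Λ := k) (fun _ => Polynomial.X - Polynomial.C Polynomial.X)
    (fun _ => Polynomial.monic_X_sub_C _) (T := 1) (fun i u w h0 => (levelOne_le u w h0).1)
    (fun l i => (c i).factorization (p l)) he hcyc cls q x x hq ?_ hrel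
    (fun i => by simp) S hS V (fun l => (V l).valuation (p l : ℂ)) hV1 ?_ ?_ hVx ?_
  · intro i hi
    have h1 := hconst i hi
    have h2 : ∀ z ∈ Algebra.adjoin ℤ (Set.range fun g => algebraMap k ℂ (Γ g)),
        z ∈ (algebraMap k ℂ).range := by
      intro z hz
      have h9 : Algebra.adjoin ℤ (Set.range fun g => algebraMap k ℂ (Γ g)) ≤
          subalgebraOfSubring (algebraMap k ℂ).range := by
        refine Algebra.adjoin_le ?_
        rintro _ ⟨g, rfl⟩
        exact ⟨Γ g, rfl⟩
      exact h9 hz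
    obtain ⟨P, hP, hPe⟩ := h1
    let φ : Algebra.adjoin ℤ (Set.range fun g => algebraMap k ℂ (Γ g)) →+*
        (algebraMap k ℂ).range :=
      (algebraMap (Algebra.adjoin ℤ (Set.range fun g => algebraMap k ℂ (Γ g))) ℂ).codRestrict
        (algebraMap k ℂ).range (fun a => h2 a a.2)
    have h3 : IsIntegral (algebraMap k ℂ).range (x i) := by
      refine ⟨P.map φ, hP.map _, ?_⟩
      have hc : (algebraMap (algebraMap k ℂ).range ℂ).comp φ =
          algebraMap (Algebra.adjoin ℤ (Set.range fun g => algebraMap k ℂ (Γ g))) ℂ :=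
        RingHom.ext fun _ => rfl
      rw [Polynomial.eval₂_map, hc]
      exact hPe
    have h4 : IsIntegral k (x i) := by
      obtain ⟨P', hP', hPe'⟩ := h3
      let e : k ≃+* (algebraMap k ℂ).range :=
        RingEquiv.ofBijective (algebraMap k ℂ).rangeRestrict
          ⟨fun a b h => (algebraMap k ℂ).injective (congrArg Subtype.val h),
            (algebraMap k ℂ).rangeRestrict_surjective⟩
      refine ⟨P'.map e.symm.toRingHom, hP'.map _, ?_⟩
      rw [Polynomial.eval₂_map]
      have hc : (algebraMap k ℂ).comp e.symm.toRingHom =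
          algebraMap (algebraMap k ℂ).range ℂ := by
        ext z
        have h5 : e (e.symm z) = z := e.apply_symm_apply z
        exact congrArg Subtype.val h5
      rw [hc]
      exact hPe'
    exact h4.isAlgebraic
  · intro l i hi
    rw [ValuationSubring.valuation_le_one_iff]
    exact int_mem Γ (V l) (hVΓ l) (hconst i hi)
  · intro l i u w h0
    rcases (levelOne_le u w h0).2 with h1 | h1
    · rw [h1, map_one, map_one]
    · rw [h1, map_neg, map_one, Valuation.map_neg, map_one]
  · intro l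
    obtain ⟨t, ht0, hAB, hI⟩ := hVy l y hy0 hyG
    refine ⟨Finset.univ.filter fun i =>
        ¬ (V l).valuation (aeval (t • y) (a i) * aeval (t • y) (b i)) = 1, ?_, ?_⟩
    · by_contra h
      push Not at h
      obtain ⟨I, hIE, hIc⟩ := Finset.exists_subset_card_eq (Nat.succ_le_of_lt h)
      obtain ⟨i, hi, h1⟩ := hI I hIc
      exact (Finset.mem_filter.1 (hIE hi)).2 h1
    · intro i hi
      rw [Finset.mem_filter] at hi
      push Not at hi
      have h1 := hi (Finset.mem_univ i)
      have hA1 := (ValuationSubring.valuation_le_one_iff _ _).2 (hAB i).1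
      have hB1 := (ValuationSubring.valuation_le_one_iff _ _).2 (hAB i).2
      rw [map_mul] at h1
      have hA2 : (V l).valuation (aeval (t • y) (a i)) = 1 := by
        refine le_antisymm hA1 ?_
        by_contra h
        push Not at h
        have h2 := (mul_le_of_le_one_right' hB1).trans_lt h
        rw [h1] at h2
        exact lt_irrefl _ h2
      have hB2 : (V l).valuation (aeval (t • y) (b i)) = 1 := by
        rw [hA2, one_mul] at h1
        exact h1
      set v := (V l).valuation with hv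
      set α := aeval (t • y) (a i) with hα
      set β := aeval (t • y) (b i) with hβ
      have hαy : α = t ^ (2 * d i) * aeval y (a i) := aeval_smul' (ha i) t y
      have hβy : β = t ^ (6 * d i) * aeval y (b i) := aeval_smul' (hb i) t y
      have h3 : x i * (27 * (c i : ℂ) * β * (4 * α ^ 3 + (c i : ℂ) * β)) =
          6912 * (-27) * α ^ 6 := by
        have h4 := congrArg (fun z => t ^ (12 * d i) * z) (hxy i)
        rw [hαy, hβy]
        calc _ = t ^ (12 * d i) * (x i * (27 * (c i : ℂ) * aeval y (b i) *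
              (4 * aeval y (a i) ^ 3 + (c i : ℂ) * aeval y (b i)))) := by
                have e1 : t ^ (12 * d i) = t ^ (6 * d i) * t ^ (6 * d i) := by
                  rw [← pow_add]
                  congr 1
                  ring
                have e2 : (t ^ (2 * d i)) ^ 3 = t ^ (6 * d i) := by
                  rw [← pow_mul]
                  congr 1
                  ring
                rw [e1, mul_pow, e2]
                ring
          _ = t ^ (12 * d i) * (6912 * (-27) * aeval y (a i) ^ 6) := h4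
          _ = _ := by
                have e2 : (t ^ (2 * d i)) ^ 6 = t ^ (12 * d i) := by
                  rw [← pow_mul]
                  congr 1
                  ring
                rw [mul_pow, e2]
                ring
      have hn27 : v (27 : ℂ) = 1 := by
        have := hsmall l 27 (by norm_num) (hpd 0 0 3)
        exact_mod_cast this
      have hn4 : v (4 : ℂ) = 1 := by
        have := hsmall l 4 (by norm_num) (hpd 0 2 0)
        exact_mod_cast this
      have hn6912 : v (6912 : ℂ) = 1 := by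
        have := hsmall l 6912 (by norm_num) (hpd 0 8 3)
        exact_mod_cast this
      have hvc : v (c i : ℂ) = v (p l : ℂ) ^ (c i).factorization (p l) :=
        v_nat_pow' (V l) (hp l).1 (hV1 l) (hc0 i)
      have hvc1 : v (c i : ℂ) < 1 := by
        rw [hvc]
        exact pow_lt_one₀ zero_le (hV1 l) (he l i).ne'
      have hsum : v (4 * α ^ 3 + (c i : ℂ) * β) = 1 := by
        have e1 : v (4 * α ^ 3) = 1 := by rw [map_mul, map_pow, hn4, hA2, one_pow, one_mul]
        have e2 : v ((c i : ℂ) * β) < v (4 * α ^ 3) := by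
          rw [e1, map_mul, hB2, mul_one]
          exact hvc1
        rw [Valuation.map_add_eq_of_lt_left v e2, e1]
      have h5 := congrArg v h3
      rw [map_mul, map_mul, map_mul, map_mul, map_mul, map_mul, map_pow, Valuation.map_neg, hn27,
        hn6912, hB2, hsum, hA2, one_pow, one_mul, mul_one, mul_one, mul_one, mul_one, hvc] at h5
      exact h5

theorem mainWK (K : Subfield ℂ) {κ : Type*}
    {N n m : ℕ} (G : κ → MvPolynomial (Fin (N + 1)) K)
    (hG : ∀ i, ∃ e, (G i).IsHomogeneous e) (a b : Fin n → MvPolynomial (Fin (N + 1)) K)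
    (d : Fin n → ℕ) (ha : ∀ i, (a i).IsHomogeneous (2 * d i))
    (hb : ∀ i, (b i).IsHomogeneous (6 * d i))
    (hdis : ∀ I : Finset (Fin n), I.card = m + 1 → ∀ y : Fin (N + 1) → ℂ,
      (∀ i, aeval y (G i) = 0) → (∀ i ∈ I, aeval y (a i) * aeval y (b i) = 0) → y = 0)
    (Γ : Finset ℂ) (hΓ : ∀ γ ∈ Γ, γ ∈ K) :
    ∃ D : ℕ, ∀ c : Fin n → ℕ, SpreadF (m + 2) 1 D c →
      ∀ (r : ℕ) (cls : Fin n → Option (Fin r)) (q : Fin n → ℕ) (x : Fin n → ℂ),
      (∀ i, 0 < q i) →
      (∀ i, cls i = none → IsIntegral (Algebra.adjoin ℤ (Γ : Set ℂ)) (x i)) →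
      (∀ i j l, cls i = some l → cls j = some l →
        IsIntegral (Algebra.adjoin ℤ {x i}) (x j) ∧
        Polynomial.eval₂ (Polynomial.aeval (x i) : Polynomial ℂ →ₐ[ℂ] ℂ).toRingHom (x j)
          (W282.ZP.Psi (q i * q j)) = 0) →
      ∀ y : Fin (N + 1) → ℂ, y ≠ 0 → (∀ i, aeval y (G i) = 0) →
      (∀ i, x i * (27 * (c i : ℂ) * aeval y (b i) *
        (4 * aeval y (a i) ^ 3 + (c i : ℂ) * aeval y (b i))) = 6912 * (-27) * aeval y (a i) ^ 6) →
      ∀ S : Finset (Fin n), AlgebraicIndependent K (fun i : S => x i) →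
        S.card + n ≤ r + m := by
  classical
  let k := algebraicClosure K ℂ
  have hcl : IsAlgClosure K k := inferInstance
  have hac : IsAlgClosed k := hcl.isAlgClosed
  have hmap : ∀ (y : Fin (N + 1) → ℂ) (P : MvPolynomial (Fin (N + 1)) K),
      aeval y (MvPolynomial.map (algebraMap K k) P) = aeval y P := fun y P =>
    MvPolynomial.aeval_map_algebraMap k y P
  let Γ' : Γ → k := fun γ => algebraMap K k ⟨γ, hΓ γ γ.2⟩
  have hΓ' : (Set.range fun g => algebraMap k ℂ (Γ' g)) = (Γ : Set ℂ) := by
    ext z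
    constructor
    · rintro ⟨g, rfl⟩
      exact g.2
    · intro hz
      exact ⟨⟨z, hz⟩, rfl⟩
  obtain ⟨D, hD⟩ := mainW (k := k) (m := m) (fun i => MvPolynomial.map (algebraMap K k) (G i))
    (fun i => by
      obtain ⟨e, he⟩ := hG i
      exact ⟨e, he.map _⟩)
    (fun i => MvPolynomial.map (algebraMap K k) (a i))
    (fun i => MvPolynomial.map (algebraMap K k) (b i)) d (fun i => (ha i).map _)
    (fun i => (hb i).map _)
    (fun I hI y h1 h2 => hdis I hI y (fun i => by rw [← hmap]; exact h1 i)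
      (fun i hi => by rw [← hmap, ← hmap y (b i)]; exact h2 i hi)) Γ'
  refine ⟨D, fun c hc r cls q x hq hconst hrel y hy0 hyG hxy S hS => ?_⟩
  refine hD c hc r cls q x hq ?_ hrel y hy0 (fun i => (hmap y _).trans (hyG i)) ?_ S ?_
  · intro i hi
    rw [hΓ']
    exact hconst i hi
  · intro i
    rw [hmap, hmap]
    exact hxy i
  · exact hS.extendScalars k

end Pool.Agent.V11322.ZF
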